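import Pool.Agent.Helper891_RP.Loc
import Pool.Agent.Helper891_RP.Emb
import Pool.Agent.Y723.HJ.Sgn
import Pool.Agent.Y723.HJ.Kum

/-!
# Number fields in `ℚ̄`, quadratic characters of their Galois groups
-/

set_option autoImplicit false
set_option linter.unusedSectionVars false
set_option linter.style.haveILetI false

open NumberField IsDedekindDomain Module

namespace Pool.Agent.Helper891_JO

open Pool.Agent.Y723.HJ (QB GQ)
open Pool.Agent.Helper891_RP (resA resA_spec)

theorem galQB : IsGalois ℚ QB := by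
  have h : @IsGalois ℚ _ QB _ (AlgebraicClosure.instAlgebra ℚ) := inferInstance
  convert h
  exact Subsingleton.elim _ _

lemma charQB : CharZero QB := algebraRat.charZero QB

section

variable {F : Type} [Field F] [NumberField F] (i : F →+* QB) [IsGalois ℚ F]

/-- the Galois group over `F` -/
noncomputable def HQ : Subgroup GQ := (resA i).ker

lemma mem_HQ {σ : GQ} : σ ∈ HQ i ↔ ∀ x, σ (i x) = i x := by
  unfold HQ
  rw [MonoidHom.mem_ker]
  constructor
  · intro h x
    rw [← resA_spec, h]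
    rfl
  · intro h
    ext x
    apply i.injective
    rw [resA_spec, h]
    rfl

instance : (HQ i).Normal := by unfold HQ; infer_instance

instance : (HQ i).FiniteIndex := by
  unfold HQ
  exact ⟨by
    rw [Subgroup.index_ker]
    exact Nat.card_pos.ne'⟩

lemma card_odd (hodd : Odd (finrank ℚ F)) : Odd (Fintype.card (GQ ⧸ HQ i)) := by
  rw [← Nat.card_eq_fintype_card]
  have h1 : Nat.card (GQ ⧸ HQ i) = (HQ i).index := rfl
  have h2 : (HQ i).index ∣ finrank ℚ F := by
    unfold HQ
    rw [Subgroup.index_ker, ← IsGalois.card_aut_eq_finrank]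
    exact Subgroup.card_subgroup_dvd_card _
  rw [h1]
  obtain ⟨k, hk⟩ := h2
  rw [hk] at hodd
  exact (Nat.odd_mul.1 hodd).1

/-- automorphisms of `F` extend -/
lemma exists_res (γ : F ≃ₐ[ℚ] F) : ∃ σ : GQ, resA i σ = γ := by
  letI := i.toAlgebra
  haveI : IsScalarTower ℚ F QB := IsScalarTower.of_algebraMap_eq fun x =>
    DFunLike.congr_fun (Subsingleton.elim (algebraMap ℚ QB) (i.comp (algebraMap ℚ F))) x
  haveI : Algebra.IsAlgebraic ℚ QB := by
    have h : @Algebra.IsAlgebraic ℚ QB _ _ (AlgebraicClosure.instAlgebra ℚ) := inferInstance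
    convert h
    exact Subsingleton.elim _ _
  haveI : Normal ℚ QB := normal_iff.2 fun x =>
    ⟨Algebra.IsIntegral.isIntegral x, IsAlgClosed.splits _⟩
  obtain ⟨σ, hσ⟩ := AlgEquiv.restrictNormalHom_surjective (F := ℚ) (K₁ := F) QB γ
  exact ⟨σ, hσ⟩

/-- elements fixed by the group -/
theorem fixF {y : QB} (h : ∀ σ ∈ HQ i, σ y = y) : ∃ x : F, i x = y := by
  letI : Algebra F QB := i.toAlgebra
  haveI hst : IsScalarTower ℚ F QB := IsScalarTower.of_algebraMap_eq fun x =>
    DFunLike.congr_fun (Subsingleton.elim (algebraMap ℚ QB) (i.comp (algebraMap ℚ F))) x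
  haveI : Algebra.IsAlgebraic ℚ QB := by
    have h : @Algebra.IsAlgebraic ℚ QB _ _ (AlgebraicClosure.instAlgebra ℚ) := inferInstance
    convert h
    exact Subsingleton.elim _ _
  haveI halg : Algebra.IsAlgebraic F QB := Algebra.IsAlgebraic.tower_top (K := ℚ) F
  haveI : IsAlgClosure F QB := ⟨inferInstance, halg⟩
  haveI : IsGalois F QB := inferInstance
  have h1 : y ∈ Set.range (algebraMap F QB) := by
    rw [InfiniteGalois.mem_range_algebraMap_iff_fixed]
    intro σ
    let σ' : QB ≃ₐ[ℚ] QB := σ.restrictScalars ℚ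
    exact h σ' (by
      rw [mem_HQ]
      intro x
      exact σ.commutes x)
  obtain ⟨x, hx⟩ := h1
  exact ⟨x, hx⟩

lemma isAlgQB : Algebra.IsAlgebraic ℚ QB := by
  have h : @Algebra.IsAlgebraic ℚ QB _ _ (AlgebraicClosure.instAlgebra ℚ) := inferInstance
  convert h
  exact Subsingleton.elim _ _

lemma HQ_open : IsOpen ((HQ i : Subgroup GQ) : Set GQ) := by
  haveI := isAlgQB
  obtain ⟨θ, hθ⟩ := Field.exists_primitive_element ℚ F
  have h1 : (HQ i : Set GQ) = (MulAction.stabilizer GQ (i θ) : Set GQ) := by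
    ext σ
    rw [SetLike.mem_coe, SetLike.mem_coe, mem_HQ, MulAction.mem_stabilizer_iff]
    constructor
    · intro h
      exact h θ
    · intro h x
      have hx : x ∈ IntermediateField.adjoin ℚ {θ} := by rw [hθ]; trivial
      induction hx using IntermediateField.adjoin_induction with
      | mem z hz =>
        rw [Set.mem_singleton_iff] at hz
        rw [hz]
        exact h
      | algebraMap q =>
        rw [eq_ratCast, map_ratCast, map_ratCast]
      | add y z _ _ hy hz => rw [map_add, map_add, hy, hz]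
      | mul y z _ _ hy hz => rw [map_mul, map_mul, hy, hz]
      | inv y _ hy => rw [map_inv₀, map_inv₀, hy]
  rw [h1]
  exact stabilizer_isOpen_of_isIntegral (i θ)

/-- quadratic characters of the subgroup -/
theorem kumQ {χ : GQ → QB} (hlc : IsLocallyConstant χ)
    (hχ : ∀ σ ∈ HQ i, χ σ = 1 ∨ χ σ = -1)
    (hmul : ∀ σ ∈ HQ i, ∀ τ ∈ HQ i, χ (σ * τ) = χ σ * χ τ) :
    ∃ s : QB, s ≠ 0 ∧ (∀ σ ∈ HQ i, σ s = χ σ * s) ∧ ∃ e : F, i e = s ^ 2 := by
  haveI hcQ : CharZero QB := charQB
  haveI hgQ := galQB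
  have h11 : (1 : QB) ≠ -1 := by
    intro h
    have : (2 : QB) = 0 := by linear_combination h
    exact two_ne_zero this
  have hone : χ 1 = 1 := by
    have := hmul 1 (one_mem _) 1 (one_mem _)
    rw [mul_one] at this
    rcases hχ 1 (one_mem _) with h | h
    · exact h
    · rw [h] at this
      exact absurd (by linear_combination -this) h11
  have hinv : ∀ σ ∈ HQ i, χ σ⁻¹ = χ σ := by
    intro σ hσ
    have h1 := hmul σ hσ σ⁻¹ (inv_mem hσ)
    rw [mul_inv_cancel, hone] at h1
    rcases hχ σ hσ with h | h <;> rw [h] at h1 ⊢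
    · rw [one_mul] at h1; exact h1.symm
    · linear_combination h1
  have main : ∃ s : QB, s ≠ 0 ∧ (∀ σ ∈ HQ i, σ s = χ σ * s) := by
    by_cases htriv : ∀ σ ∈ HQ i, χ σ = 1
    · exact ⟨1, one_ne_zero, fun σ hσ => by rw [htriv σ hσ, map_one, one_mul]⟩
    · push Not at htriv
      obtain ⟨τ, hτ, hτ1⟩ := htriv
      have hτ' : χ τ = -1 := (hχ τ hτ).resolve_left hτ1
      let H0 : Subgroup GQ :=
        { carrier := {σ | σ ∈ HQ i ∧ χ σ = 1}
          mul_mem' := by
            rintro a b ⟨ha, ha'⟩ ⟨hb, hb'⟩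
            exact ⟨mul_mem ha hb, by rw [hmul a ha b hb, ha', hb', one_mul]⟩
          one_mem' := ⟨one_mem _, hone⟩
          inv_mem' := by
            rintro a ⟨ha, ha'⟩
            exact ⟨inv_mem ha, by rw [hinv a ha, ha']⟩ }
      have hHo : IsOpen (H0 : Set GQ) := (HQ_open i).inter (hlc.isOpen_fiber 1)
      let Hc : ClosedSubgroup GQ := ⟨H0, H0.isClosed_of_isOpen hHo⟩
      have hfx := InfiniteGalois.fixingSubgroup_fixedField Hc
      have hτn : τ ∉ (IntermediateField.fixedField (Hc : Subgroup GQ)).fixingSubgroup := by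
        rw [hfx]
        intro h
        exact hτ1 h.2
      rw [IntermediateField.mem_fixingSubgroup_iff] at hτn
      push Not at hτn
      obtain ⟨x, hx, hx'⟩ := hτn
      have hxH : ∀ σ ∈ HQ i, χ σ = 1 → σ x = x := fun σ hσ h0 => hx ⟨σ, hσ, h0⟩
      have cancel : ∀ z : QB, τ (τ⁻¹ z) = z := fun z => by
        rw [← AlgEquiv.mul_apply, mul_inv_cancel, AlgEquiv.one_apply]
      refine ⟨x - τ x, sub_ne_zero.2 (Ne.symm hx'), fun σ hσ => ?_⟩
      rcases hχ σ hσ with h | h
      · have e2 : σ (τ x) = τ x := by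
          have h3 : χ (τ⁻¹ * σ * τ) = 1 := by
            rw [hmul _ (mul_mem (inv_mem hτ) hσ) _ hτ, hmul _ (inv_mem hτ) _ hσ, hinv τ hτ, h, hτ']
            ring
          have h4 := hxH _ (mul_mem (mul_mem (inv_mem hτ) hσ) hτ) h3
          rw [AlgEquiv.mul_apply, AlgEquiv.mul_apply] at h4
          have h5 := congrArg τ h4
          rw [cancel] at h5
          exact h5
        rw [map_sub, hxH σ hσ h, e2, h, one_mul]
      · have e1 : σ x = τ x := by
          have h3 : χ (τ⁻¹ * σ) = 1 := by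
            rw [hmul _ (inv_mem hτ) _ hσ, hinv τ hτ, h, hτ']
            ring
          have h4 := hxH _ (mul_mem (inv_mem hτ) hσ) h3
          rw [AlgEquiv.mul_apply] at h4
          have h5 := congrArg τ h4
          rw [cancel] at h5
          exact h5
        have e2 : σ (τ x) = x := by
          have h3 : χ (σ * τ) = 1 := by
            rw [hmul _ hσ _ hτ, h, hτ']
            ring
          have h4 := hxH _ (mul_mem hσ hτ) h3
          rwa [AlgEquiv.mul_apply] at h4
        rw [map_sub, e1, e2, h]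
        ring
  obtain ⟨s, hs0, hs⟩ := main
  refine ⟨s, hs0, hs, fixF i fun σ hσ => ?_⟩
  rw [map_pow, hs σ hσ]
  rcases hχ σ hσ with h | h <;> rw [h] <;> ring

/-- extension of embeddings -/
lemma exists_extF {Ω : Type} [Field Ω] [IsAlgClosed Ω] (j : F →+* Ω) :
    ∃ ι : QB →+* Ω, ∀ x, ι (i x) = j x := by
  letI : Algebra F QB := i.toAlgebra
  letI : Algebra F Ω := j.toAlgebra
  haveI hst : IsScalarTower ℚ F QB := IsScalarTower.of_algebraMap_eq fun x =>
    DFunLike.congr_fun (Subsingleton.elim (algebraMap ℚ QB) (i.comp (algebraMap ℚ F))) x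
  haveI := isAlgQB
  haveI halg : Algebra.IsAlgebraic F QB := Algebra.IsAlgebraic.tower_top (K := ℚ) F
  let φ : QB →ₐ[F] Ω := IsAlgClosed.lift
  exact ⟨φ, fun x => φ.commutes x⟩

end

end Pool.Agent.Helper891_JO
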