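import Pool.Agent.Helper891_JO.Tw

/-!
# The places where all the roots are distinct modulo `p`
-/

set_option autoImplicit false
set_option linter.unusedSectionVars false

namespace Pool.Agent.Helper891_JO

open Polynomial
open Pool.Agent.Y723.HJ (hpol hpol_map)
open Pool.Agent.Y715.Nr Pool.Agent.Y715.Red

variable {g : ℕ} {a : Fin (2 * g + 1) → ℤ} {p : ℕ} [Fact p.Prime]

open Classical in
/-- an element with `‖zz x‖ ^ 2 = ‖x - a i‖` -/
noncomputable def zz (a : Fin (2 * g + 1) → ℤ) (i : Fin (2 * g + 1)) (v : (PadicAlgCl p)[X])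
    (x : PadicAlgCl p) : PadicAlgCl p :=
  if ‖x - A a p i‖ < 1 then v.eval x else if ‖x - A a p i‖ = 1 then 1 else
    v.eval x / (x - A a p i) ^ g

lemma eval_fix {v : (PadicAlgCl p)[X]} (τ : Au p)
    (hv : v.map (τ : PadicAlgCl p →+* PadicAlgCl p) = v) (x : PadicAlgCl p) :
    v.eval (τ x) = τ (v.eval x) := by
  have h1 := eval₂_at_apply (p := v) (τ : PadicAlgCl p →+* PadicAlgCl p) x
  rw [eval₂_eq_eval_map, hv] at h1
  exact h1

lemma zz_map (i : Fin (2 * g + 1)) {v : (PadicAlgCl p)[X]} (τ : Au p)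
    (hv : v.map (τ : PadicAlgCl p →+* PadicAlgCl p) = v) (x : PadicAlgCl p) :
    zz a i v (τ x) = τ (zz a i v x) := by
  have e : ‖τ x - A a p i‖ = ‖x - A a p i‖ := by
    rw [← nrm τ (x - A a p i), map_sub, map_intCast]
  unfold zz
  rw [e]
  split_ifs
  · exact eval_fix τ hv x
  · rw [map_one]
  · rw [eval_fix τ hv x, map_div₀, map_pow, map_sub, map_intCast]

lemma zz_norm {i : Fin (2 * g + 1)} (hi : ∀ l, l ≠ i → ‖A a p i - A a p l‖ = 1)
    {v : (PadicAlgCl p)[X]} {x : PadicAlgCl p}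
    (hf : (hpol a (PadicAlgCl p)).eval x = v.eval x ^ 2) :
    ‖x - A a p i‖ = ‖zz a i v x‖ ^ 2 := by
  have hn := congrArg norm hf
  rw [hpol_eval, norm_prod, norm_pow, ← Finset.mul_prod_erase Finset.univ _ (Finset.mem_univ i)]
    at hn
  unfold zz
  rcases lt_trichotomy ‖x - A a p i‖ 1 with h | h | h
  · rw [if_pos h, ← hn]
    have h1 : ∏ l ∈ Finset.univ.erase i, ‖x - A a p l‖ = 1 := by
      refine Finset.prod_eq_one fun l hl => ?_
      have h2 := hi l (Finset.ne_of_mem_erase hl)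
      have e : x - A a p l = (A a p i - A a p l) + (x - A a p i) := by ring
      rw [e, eq_of_lt (by rw [h2]; exact h), h2]
    rw [h1, mul_one]
  · rw [if_neg (by rw [h]; exact lt_irrefl _), if_pos h, h, norm_one, one_pow]
  · rw [if_neg (not_lt.2 h.le), if_neg h.ne', norm_div, div_pow, norm_pow, ← hn]
    have h1 : ∏ l ∈ Finset.univ.erase i, ‖x - A a p l‖ = ‖x - A a p i‖ ^ (2 * g) := by
      rw [Finset.prod_congr rfl (g := fun _ => ‖x - A a p i‖), Finset.prod_const,
        Finset.card_erase_of_mem (Finset.mem_univ i), Finset.card_univ, Fintype.card_fin]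
      · rfl
      · intro l hl
        have h2 := hi l (Finset.ne_of_mem_erase hl)
        have e : x - A a p l = (x - A a p i) + (A a p i - A a p l) := by ring
        rw [e, eq_of_lt (by rw [h2]; exact h)]
    rw [h1, ← pow_mul, mul_comm g 2, mul_div_assoc, div_self, mul_one]
    exact pow_ne_zero _ (by linarith)

theorem good_val {i : Fin (2 * g + 1)} (hi : ∀ l, l ≠ i → ‖A a p i - A a p l‖ = 1)
    {K : IntermediateField ℚ_[p] (PadicAlgCl p)} {u v : K[X]} (hu : u.Monic)
    (huv : u ∣ hpol a K - v ^ 2) :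
    ∃ k : K, ‖algebraMap K (PadicAlgCl p) ((-1) ^ u.natDegree * u.eval ((a i : ℤ) : K))‖ =
      ‖algebraMap K (PadicAlgCl p) k‖ ^ 2 := by
  set V := v.map (algebraMap K (PadicAlgCl p)) with hV
  obtain ⟨k, hk⟩ := prod_fix u (zz a i V) (fun τ x =>
    zz_map i (τ.restrictScalars ℚ_[p]) (map_fix v τ) x)
  refine ⟨k, ?_⟩
  rw [hk, delta hu, map_intCast]
  have hZ : ∀ x ∈ (u.map (algebraMap K (PadicAlgCl p))).roots,
      (hpol a (PadicAlgCl p)).eval x = V.eval x ^ 2 := fun x hx =>
    root_sq (dvd_map _ huv) (root_eval hu hx)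
  have key : ∀ Y : Multiset (PadicAlgCl p), (∀ x ∈ Y, (hpol a (PadicAlgCl p)).eval x =
      V.eval x ^ 2) → ‖(Y.map (fun x => x - A a p i)).prod‖ = ‖(Y.map (zz a i V)).prod‖ ^ 2 := by
    intro Y
    induction Y using Multiset.induction_on with
    | empty => intro _; simp
    | cons x Y ih =>
      intro hY
      simp only [Multiset.map_cons, Multiset.prod_cons]
      rw [norm_mul, norm_mul, ih fun y hy => hY y (Multiset.mem_cons_of_mem hy),
        zz_norm hi (hY x (Multiset.mem_cons_self _ _)), mul_pow]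
  exact key _ hZ

end Pool.Agent.Helper891_JO
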