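import Pool.Agent.Helper891_JO.Gd
import Pool.Agent.Helper891_RP.Key

/-!
# The global step
-/

set_option autoImplicit false
set_option linter.unusedSectionVars false

namespace Pool.Agent.Helper891_JO

open Polynomial NumberField IsDedekindDomain Module
open Pool.Agent.Y723.HJ (hpol hpol_map)
open Pool.Agent.Y715.Nr Pool.Agent.Y715.Red
open Pool.Agent.TH841.NF (pls lf mem_lf)
open Pool.Agent.Y46.G2 (val_le_one_of_norm val_lt_one_of_norm)
open Pool.Agent.Y682 (NCl UnrC TotPos elt_sq sq_of_unrC)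
open Pool.Agent.Helper891_RP (norm_val norm_eq_of_pls lf_dense exists_pls exists_prime_mem
  p_mem_pls parity)

/-- the local data -/
def LocD (K : Type) [Field K] {g : ℕ} (a : Fin (2 * g + 1) → ℤ) (d : Fin (2 * g + 1) → K) : Prop :=
  ∃ u v : K[X], u.Monic ∧ u ∣ hpol a K - v ^ 2 ∧ ∀ i, u.eval ((a i : ℤ) : K) ≠ 0 ∧
    ∃ k : K, (-1) ^ u.natDegree * u.eval ((a i : ℤ) : K) * d i = k ^ 2

section real

variable {g : ℕ} {a : Fin (2 * g + 1) → ℤ} {d : Fin (2 * g + 1) → ℝ}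

lemma real_first (ha : StrictMono a) (h : LocD ℝ a d) (hd : ∀ i, d i ≠ 0) : 0 < d 0 := by
  obtain ⟨u, v, hu, huv, hk⟩ := h
  have h1 := real_zero ha hu huv fun i => (hk i).1
  obtain ⟨-, k, hk0⟩ := hk 0
  by_contra hcon
  have h2 : d 0 < 0 := lt_of_le_of_ne (not_lt.1 hcon) (hd 0)
  have h3 := mul_neg_of_pos_of_neg h1 h2
  rw [hk0] at h3
  exact absurd h3 (not_lt.2 (sq_nonneg _))

lemma real_two (ha : StrictMono a) (h : LocD ℝ a d) (hd : ∀ i, d i ≠ 0) {i j : Fin (2 * g + 1)}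
    {k : ℕ} (hi : (i : ℕ) = 2 * k + 1) (hj : (j : ℕ) = 2 * k + 2) : 0 < d i * d j := by
  obtain ⟨u, v, hu, huv, hk⟩ := h
  have h1 := real_pair ha huv (fun i => (hk i).1) hi hj
  obtain ⟨-, x, hx⟩ := hk i
  obtain ⟨-, y, hy⟩ := hk j
  by_contra hcon
  have h2 : d i * d j < 0 := lt_of_le_of_ne (not_lt.1 hcon) (mul_ne_zero (hd i) (hd j))
  have h3 := mul_neg_of_pos_of_neg h1 h2
  have h4 : ((-1 : ℝ) ^ u.natDegree) ^ 2 = 1 := by
    rw [← pow_mul, mul_comm, pow_mul, neg_one_sq, one_pow]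
  have h5 : u.eval ((a i : ℤ) : ℝ) * u.eval ((a j : ℤ) : ℝ) * (d i * d j) = (x * y) ^ 2 := by
    rw [mul_pow, ← hx, ← hy]
    linear_combination (-(u.eval ((a i : ℤ) : ℝ) * u.eval ((a j : ℤ) : ℝ) * (d i * d j))) * h4
  rw [h5] at h3
  exact absurd h3 (not_lt.2 (sq_nonneg _))

end real

section padic

variable {F : Type} [Field F] [NumberField F] {g : ℕ} {a : Fin (2 * g + 1) → ℤ}
  {e : Fin (2 * g + 1) → F}

lemma approx {p : ℕ} [Fact p.Prime] (j : F →+* PadicAlgCl p) {y : PadicAlgCl p} (hy : y ∈ lf j)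
    (hy0 : y ≠ 0) {r : ℝ} (hr : 0 < r) (hr1 : r ≤ 1) :
    ∃ t : F, t ≠ 0 ∧ ‖j t‖ = ‖y‖ ∧ ‖y - j t‖ < r * ‖y‖ := by
  have hyn : 0 < ‖y‖ := norm_pos_iff.2 hy0
  obtain ⟨t, ht⟩ := lf_dense j hy (ε := r * ‖y‖) (by positivity)
  have hjt : ‖j t‖ = ‖y‖ := by
    have e : j t = y + -(y - j t) := by ring
    rw [e]
    apply eq_of_lt
    rw [norm_neg]
    refine ht.trans_le ?_
    nlinarith
  refine ⟨t, ?_, hjt, ht⟩
  rintro rfl
  rw [map_zero, norm_zero] at hjt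
  exact hyn.ne hjt

/-- good places -/
lemma good_even {p : ℕ} [Fact p.Prime] {j : F →+* PadicAlgCl p}
    (h : LocD (lf j) a (fun i => ⟨j (e i), mem_lf j _⟩)) (he : ∀ i, e i ≠ 0)
    {i : Fin (2 * g + 1)} (hi : ∀ l, l ≠ i → ‖A a p i - A a p l‖ = 1) :
    ∃ z : F, z ≠ 0 ∧ ‖j (e i)‖ = ‖j z‖ ^ 2 := by
  obtain ⟨u, v, hu, huv, hk⟩ := h
  obtain ⟨k, hk'⟩ := good_val hi hu huv
  obtain ⟨h0, x, hx⟩ := hk i
  have hje : j (e i) ≠ 0 := (_root_.map_ne_zero j).2 (he i)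
  have hδ : algebraMap (lf j) (PadicAlgCl p) ((-1) ^ u.natDegree * u.eval ((a i : ℤ) : lf j)) ≠ 0 :=
    (_root_.map_ne_zero _).2 (mul_ne_zero (pow_ne_zero _ (neg_ne_zero.2 one_ne_zero)) h0)
  have hx' := congrArg (algebraMap (lf j) (PadicAlgCl p)) hx
  rw [map_mul, map_pow] at hx'
  have hx'' : ‖algebraMap (lf j) (PadicAlgCl p) k‖ ^ 2 * ‖j (e i)‖ =
      ‖algebraMap (lf j) (PadicAlgCl p) x‖ ^ 2 := by
    rw [← hk', ← norm_mul, ← norm_pow]
    exact congrArg norm hx'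
  have hk0 : ‖algebraMap (lf j) (PadicAlgCl p) k‖ ≠ 0 := by
    intro hk0
    rw [hk0] at hk'
    exact hδ (norm_eq_zero.1 (by rw [hk']; norm_num))
  have hk1 : algebraMap (lf j) (PadicAlgCl p) k ≠ 0 := by
    rwa [Ne, ← norm_eq_zero]
  have hx1 : algebraMap (lf j) (PadicAlgCl p) x ≠ 0 := by
    intro h1
    rw [h1, norm_zero] at hx''
    have h2 : 0 < ‖algebraMap (lf j) (PadicAlgCl p) k‖ ^ 2 * ‖j (e i)‖ :=
      mul_pos (pow_pos (norm_pos_iff.2 hk1) 2) (norm_pos_iff.2 hje)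
    rw [hx''] at h2
    norm_num at h2
  obtain ⟨t, ht0, ht, -⟩ := approx j (y := algebraMap (lf j) (PadicAlgCl p) (x / k)) (x / k).2
    (by rw [map_div₀]; exact div_ne_zero hx1 hk1) one_pos le_rfl
  refine ⟨t, ht0, ?_⟩
  rw [ht, map_div₀, norm_div, div_pow, ← hx'']
  field_simp

/-- the place above two -/
lemma cluster_near {j : F →+* PadicAlgCl 2}
    (h : LocD (lf j) a (fun i => ⟨j (e i), mem_lf j _⟩)) (he : ∀ i, e i ≠ 0)
    {S : Finset (Fin (2 * g + 1))} {c : Fin (2 * g + 1)}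
    (ha : Function.Injective a) (hc : c ∈ S)
    (hcl : ∀ i ∈ S, ∀ l ∉ S, ‖A a 2 c - A a 2 i‖ ≤ ‖A a 2 c - A a 2 l‖ / 32)
    {m : ℕ} (hm : S.card = 2 * m) :
    ∃ (n : ℕ) (t : F), t ≠ 0 ∧ ‖j ((∏ i ∈ S, e i) *
      (∏ l ∈ Sᶜ, (((a c : ℤ) : F) - ((a l : ℤ) : F))) ^ n * t⁻¹ ^ 2 - 1)‖ < 1 / 8 := by
  classical
  obtain ⟨u, v, hu, huv, hk⟩ := h
  obtain ⟨n, k, hk'⟩ := cluster_sq ha hc hcl hm hu huv fun i => (hk i).1
  choose h0 x hx using hk
  set H : lf j := ∏ l ∈ Sᶜ, (((a c : ℤ) : lf j) - ((a l : ℤ) : lf j)) with hH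
  set D : lf j := ∏ i ∈ S, ((-1) ^ u.natDegree * u.eval ((a i : ℤ) : lf j)) with hD
  have hH0 : H ≠ 0 := by
    rw [hH, Finset.prod_ne_zero_iff]
    intro l hl
    rw [Finset.mem_compl] at hl
    rw [sub_ne_zero]
    intro h3
    have h4 : a c = a l := by exact_mod_cast h3
    exact hl (ha h4 ▸ hc)
  have hD0 : D ≠ 0 := by
    rw [hD, Finset.prod_ne_zero_iff]
    intro i _
    exact mul_ne_zero (pow_ne_zero _ (neg_ne_zero.2 one_ne_zero)) (h0 i)
  have hk0 : k ≠ 0 := by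
    rintro rfl
    rw [zero_pow two_ne_zero] at hk'
    exact mul_ne_zero hD0 (pow_ne_zero _ hH0) hk'
  have hX : D * (∏ i ∈ S, (⟨j (e i), mem_lf j _⟩ : lf j)) = (∏ i ∈ S, x i) ^ 2 := by
    rw [hD, ← Finset.prod_mul_distrib, ← Finset.prod_pow]
    exact Finset.prod_congr rfl fun i _ => hx i
  set E : lf j := ∏ i ∈ S, (⟨j (e i), mem_lf j _⟩ : lf j) with hE
  have hE0 : E ≠ 0 := by
    rw [hE, Finset.prod_ne_zero_iff]
    intro i _ h
    have h1 := congrArg (algebraMap (lf j) (PadicAlgCl 2)) h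
    rw [map_zero] at h1
    exact (_root_.map_ne_zero j).2 (he i) h1
  set y : lf j := (∏ i ∈ S, x i) * H ^ n / k with hy
  have hy2 : y ^ 2 = E * H ^ n := by
    rw [hy, div_pow, mul_pow, ← hX, ← hk']
    field_simp
  have hy0 : y ≠ 0 := by
    intro h
    rw [h, zero_pow two_ne_zero] at hy2
    exact mul_ne_zero hE0 (pow_ne_zero _ hH0) hy2.symm
  have hyΩ : algebraMap (lf j) (PadicAlgCl 2) y ≠ 0 := (_root_.map_ne_zero _).2 hy0
  obtain ⟨t, ht0, ht, htd⟩ := approx j (y := algebraMap (lf j) (PadicAlgCl 2) y) y.2 hyΩ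
    (r := 1 / 8) (by norm_num) (by norm_num)
  refine ⟨n, t, ht0, ?_⟩
  have hjt0 : j t ≠ 0 := (_root_.map_ne_zero j).2 ht0
  have hEj : algebraMap (lf j) (PadicAlgCl 2) (E * H ^ n) = j ((∏ i ∈ S, e i) *
      (∏ l ∈ Sᶜ, (((a c : ℤ) : F) - ((a l : ℤ) : F))) ^ n) := by
    rw [map_mul, map_mul, map_pow, map_pow, hE, hH, map_prod, map_prod, map_prod, map_prod]
    congr 1
    congr 1
    refine Finset.prod_congr rfl fun l _ => ?_
    rw [map_sub, map_sub, map_intCast, map_intCast, map_intCast, map_intCast]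
  have e1 : j ((∏ i ∈ S, e i) *
      (∏ l ∈ Sᶜ, (((a c : ℤ) : F) - ((a l : ℤ) : F))) ^ n * t⁻¹ ^ 2 - 1) =
      (algebraMap (lf j) (PadicAlgCl 2) y - j t) * (algebraMap (lf j) (PadicAlgCl 2) y + j t) /
        (j t) ^ 2 := by
    rw [map_sub, map_mul, ← hEj, ← hy2, map_pow, map_pow, map_inv₀, map_one]
    field_simp
    ring
  have hsum : ‖algebraMap (lf j) (PadicAlgCl 2) y + j t‖ ≤ ‖algebraMap (lf j) (PadicAlgCl 2) y‖ :=
    add_le le_rfl ht.le
  have hyn : 0 < ‖algebraMap (lf j) (PadicAlgCl 2) y‖ := norm_pos_iff.2 hyΩ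
  rw [e1, norm_div, norm_mul, norm_pow, ht, div_lt_iff₀ (by positivity)]
  calc ‖algebraMap (lf j) (PadicAlgCl 2) y - j t‖ * ‖algebraMap (lf j) (PadicAlgCl 2) y + j t‖
      ≤ ‖algebraMap (lf j) (PadicAlgCl 2) y - j t‖ * ‖algebraMap (lf j) (PadicAlgCl 2) y‖ :=
        mul_le_mul_of_nonneg_left hsum (norm_nonneg _)
    _ < 1 / 8 * ‖algebraMap (lf j) (PadicAlgCl 2) y‖ * ‖algebraMap (lf j) (PadicAlgCl 2) y‖ :=
        mul_lt_mul_of_pos_right htd hyn
    _ = 1 / 8 * ‖algebraMap (lf j) (PadicAlgCl 2) y‖ ^ 2 := by ring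

/-- an element near one is unramified -/
lemma unrC_near {j : F →+* PadicAlgCl 2} {x t : F} (ht : t ≠ 0)
    (h : ‖j (x * t ^ 2 - 1)‖ < 1 / 8) : UnrC ((pls j).valuation F) x := by
  have h4 : ‖j (4 : F)‖ = 1 / 4 := by
    have e : (4 : F) = ((2 : ℕ) : F) * ((2 : ℕ) : F) := by norm_num
    rw [e, map_mul, map_natCast, norm_mul, Pool.Agent.W571.RK.norm_p_Om]
    norm_num
  have hu : ‖j ((x * t ^ 2 - 1) / 4)‖ ≤ 1 := by
    rw [map_div₀, norm_div, h4, div_le_one (by norm_num)]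
    linarith
  have hlt := val_lt_one_of_norm j (x := x * t ^ 2 - 1) (h.trans (by norm_num))
  refine ⟨t, 1, (x * t ^ 2 - 1) / 4, ht, by ring, ?_, (map_one _).le, val_le_one_of_norm j hu⟩
  have e : x * t ^ 2 = 1 + (x * t ^ 2 - 1) := by ring
  rw [e, Valuation.map_one_add_of_lt _ hlt]

/-- only one place above `p` -/
def OneP (F : Type) [Field F] [NumberField F] (p : ℕ) : Prop :=
  ∀ v w : HeightOneSpectrum (𝓞 F), (p : 𝓞 F) ∈ v.asIdeal → (p : 𝓞 F) ∈ w.asIdeal → v = w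

lemma norm_conj {p : ℕ} [Fact p.Prime] (h1 : OneP F p) (j : F →+* PadicAlgCl p) (γ : F ≃ₐ[ℚ] F)
    (x : F) : ‖j (γ x)‖ = ‖j x‖ :=
  norm_eq_of_pls (j := j.comp (γ : F →+* F)) (j' := j) (h1 _ _ (p_mem_pls _) (p_mem_pls _)) x

lemma unr_ratio (h1 : OneP F 2) (γ : F ≃ₐ[ℚ] F) {j : F →+* PadicAlgCl 2}
    (h : LocD (lf j) a (fun i => ⟨j (e i), mem_lf j _⟩)) (he : ∀ i, e i ≠ 0)
    {S : Finset (Fin (2 * g + 1))} {c : Fin (2 * g + 1)}
    (ha : Function.Injective a) (hc : c ∈ S)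
    (hcl : ∀ i ∈ S, ∀ l ∉ S, ‖A a 2 c - A a 2 i‖ ≤ ‖A a 2 c - A a 2 l‖ / 32)
    {m : ℕ} (hm : S.card = 2 * m) :
    UnrC ((pls j).valuation F) (∏ i ∈ S, γ (e i) / e i) := by
  classical
  obtain ⟨n, t, ht0, ht⟩ := cluster_near h he ha hc hcl hm
  set E := ∏ i ∈ S, e i with hE
  set H : F := ∏ l ∈ Sᶜ, (((a c : ℤ) : F) - ((a l : ℤ) : F)) with hH
  have hE0 : E ≠ 0 := Finset.prod_ne_zero_iff.2 fun i _ => he i
  have hH0 : H ≠ 0 := by
    rw [hH, Finset.prod_ne_zero_iff]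
    intro l hl
    rw [Finset.mem_compl] at hl
    rw [sub_ne_zero]
    intro h3
    have h4 : a c = a l := by exact_mod_cast h3
    exact hl (ha h4 ▸ hc)
  have hγH : γ H = H := by
    rw [hH, map_prod]
    refine Finset.prod_congr rfl fun l _ => ?_
    rw [map_sub, map_intCast, map_intCast]
  have hγt0 : γ t ≠ 0 := (_root_.map_ne_zero γ).2 ht0
  have hγE0 : γ E ≠ 0 := (_root_.map_ne_zero γ).2 hE0
  set y := E * H ^ n * t⁻¹ ^ 2 with hy
  have hy' : ‖j (γ y - 1)‖ < 1 / 8 := by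
    have e1 : γ y - 1 = γ (y - 1) := by rw [map_sub, map_one]
    rw [e1, norm_conj h1]
    exact ht
  have hy1 : ‖j y‖ = 1 := by
    have e1 : j y = 1 + j (y - 1) := by rw [map_sub, map_one]; ring
    rw [e1, eq_of_lt (by rw [norm_one]; exact ht.trans (by norm_num)), norm_one]
  have hy0 : y ≠ 0 := by
    rw [hy]
    exact mul_ne_zero (mul_ne_zero hE0 (pow_ne_zero _ hH0)) (pow_ne_zero _ (inv_ne_zero ht0))
  have e2 : (∏ i ∈ S, γ (e i) / e i) * (t / γ t) ^ 2 = γ y / y := by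
    rw [Finset.prod_div_distrib, ← map_prod, ← hE, hy, map_mul, map_mul, map_pow, map_pow, map_inv₀,
      hγH]
    field_simp
  refine unrC_near (t := t / γ t) (div_ne_zero ht0 hγt0) ?_
  rw [e2]
  have e3 : γ y / y - 1 = ((γ y - 1) - (y - 1)) / y := by
    field_simp
    ring
  rw [e3, map_div₀, norm_div, hy1, div_one, map_sub]
  exact sub_lt hy' ht

/-- even valuations -/
lemma even_of_one {p : ℕ} [Fact p.Prime] {j : F →+* PadicAlgCl p} {x : F} (hx : x ≠ 0)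
    (h : ‖j x‖ = 1) : ∃ n : ℤ, (pls j).valuation F x = WithZero.exp (2 * n) :=
  parity j hx one_ne_zero (t := 1) (by rw [h, one_pow]) odd_one (by
    rw [map_one, norm_one, one_pow])

lemma unrC_of_even' {v : HeightOneSpectrum (𝓞 F)} (h : (2 : 𝓞 F) ∉ v.asIdeal) {x : F} {n : ℤ}
    (hn : v.valuation F x = WithZero.exp (2 * n)) : UnrC (v.valuation F) x := by
  obtain ⟨π, hπ⟩ := v.valuation_exists_uniformizer F
  have hπ0 : π ≠ 0 := by
    rintro rfl
    rw [map_zero] at hπ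
    exact WithZero.coe_ne_zero hπ.symm
  have hπ' : v.valuation F π = WithZero.exp (-1 : ℤ) := hπ
  have h4 : v.valuation F (4 : F) = 1 := by
    have h1 : v.valuation F (algebraMap (𝓞 F) F 2) = 1 := by
      rw [HeightOneSpectrum.valuation_eq_one_iff_notMem]
      exact h
    rw [map_ofNat] at h1
    have e : (4 : F) = 2 * 2 := by norm_num
    rw [e, map_mul, h1, one_mul]
  refine UnrC.of_even (t := π ^ n) (zpow_ne_zero _ hπ0) ?_ h4
  rw [map_mul, map_pow, map_zpow₀, hn, hπ', ← WithZero.exp_zsmul, ← WithZero.exp_nsmul,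
    ← WithZero.exp_add, ← WithZero.exp_zero]
  congr 1
  simp only [smul_eq_mul]
  ring

end padic

section span

variable {g : ℕ} (a : Fin (2 * g + 1) → ℤ)

/-- even clusters of roots at two -/
def Clus (S : Finset (Fin (2 * g + 1))) : Prop :=
  Even S.card ∧ ∀ i ∈ S, ∀ j ∈ S, ∀ l ∉ S, i ≠ j →
    padicValInt 2 (a i - a l) + 5 ≤ padicValInt 2 (a i - a j)

/-- the sets of the indices given by the real place and the place two generate everything -/
def Spn : Prop := ∀ P : Finset (Fin (2 * g + 1)) → Prop, P {0} →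
  (∀ (k : ℕ) (i j : Fin (2 * g + 1)), (i : ℕ) = 2 * k + 1 → (j : ℕ) = 2 * k + 2 → P {i, j}) →
  (∀ S, Clus a S → P S) → (∀ S T, P S → P T → P (symmDiff S T)) → ∀ i, P {i}

variable {a}

lemma norm_int2 {n : ℤ} (hn : n ≠ 0) : ‖((n : ℤ) : PadicAlgCl 2)‖ = (2 : ℝ) ^ (-(padicValInt 2 n : ℤ)) := by
  have e : ((n : ℤ) : PadicAlgCl 2) = ((n : ℚ_[2]) : PadicAlgCl 2) := by
    change _ = algebraMap ℚ_[2] (PadicAlgCl 2) (n : ℚ_[2])
    rw [map_intCast]
  rw [e, PadicAlgCl.norm_extends, ← Rat.cast_intCast, Padic.eq_padicNorm,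
    padicNorm.eq_zpow_of_nonzero (by exact_mod_cast hn)]
  push_cast
  rw [padicValRat.of_int]

lemma clus_norm (ha : Function.Injective a) {S : Finset (Fin (2 * g + 1))} (h : Clus a S)
    {c : Fin (2 * g + 1)} (hc : c ∈ S) : ∀ i ∈ S, ∀ l ∉ S,
      ‖A a 2 c - A a 2 i‖ ≤ ‖A a 2 c - A a 2 l‖ / 32 := by
  intro i hi l hl
  by_cases hci : c = i
  · rw [hci, sub_self, norm_zero]
    positivity
  · have h1 := h.2 c hc i hi l hl hci
    have hcl : c ≠ l := by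
      rintro rfl
      exact hl hc
    have e1 : A a 2 c - A a 2 i = ((a c - a i : ℤ) : PadicAlgCl 2) := by push_cast; rfl
    have e2 : A a 2 c - A a 2 l = ((a c - a l : ℤ) : PadicAlgCl 2) := by push_cast; rfl
    rw [e1, e2, norm_int2 (sub_ne_zero.2 fun h => hci (ha h)),
      norm_int2 (sub_ne_zero.2 fun h => hcl (ha h))]
    have e3 : (2 : ℝ) ^ (-(padicValInt 2 (a c - a l) : ℤ)) / 32 =
        (2 : ℝ) ^ (-(padicValInt 2 (a c - a l) : ℤ) - 5) := by
      rw [zpow_sub₀ (by norm_num)]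
      norm_num
    rw [e3]
    exact zpow_le_zpow_right₀ (by norm_num) (by omega)

end span

section final

variable {F : Type} [Field F] [NumberField F] {g : ℕ} {a : Fin (2 * g + 1) → ℤ}
  {e : Fin (2 * g + 1) → F}

lemma norm_one_of {p : ℕ} [Fact p.Prime] (i l : Fin (2 * g + 1)) (h : ¬ (p : ℤ) ∣ a i - a l) :
    ‖A a p i - A a p l‖ = 1 := by
  have e1 : A a p i - A a p l = (((a i - a l : ℤ) : ℚ_[p]) : PadicAlgCl p) := by
    have e2 : A a p i - A a p l = ((a i - a l : ℤ) : PadicAlgCl p) := by push_cast; rfl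
    rw [e2]
    change _ = algebraMap ℚ_[p] (PadicAlgCl p) ((a i - a l : ℤ) : ℚ_[p])
    rw [map_intCast]
  rw [e1, PadicAlgCl.norm_extends]
  refine le_antisymm (Padic.norm_int_le_one _) ?_
  by_contra hcon
  rw [not_le] at hcon
  exact h (Padic.norm_intCast_lt_one_iff.1 hcon)

/-- **the ratios of the conjugates are squares** -/
theorem ratio_sq [IsTotallyReal F] (hN : Odd (Nat.card (NCl F))) (ha : StrictMono a)
    (hR : ∀ φ : F →+* ℝ, LocD ℝ a (fun i => φ (e i)))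
    (hP : ∀ (p : ℕ) [Fact p.Prime] (j : F →+* PadicAlgCl p),
      LocD (lf j) a (fun i => ⟨j (e i), mem_lf j _⟩))
    (he : ∀ i, e i ≠ 0) (h2 : OneP F 2)
    (hbad : ∀ p : ℕ, p.Prime → (∃ i l, i ≠ l ∧ (p : ℤ) ∣ a i - a l) → OneP F p)
    (hspan : Spn a) (γ : F ≃ₐ[ℚ] F) (i : Fin (2 * g + 1)) : ∃ y : F, γ (e i) = e i * y ^ 2 := by
  classical
  have hγ0 : ∀ i, γ (e i) ≠ 0 := fun i => (_root_.map_ne_zero γ).2 (he i)
  have hr0 : ∀ i, γ (e i) / e i ≠ 0 := fun i => div_ne_zero (hγ0 i) (he i)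
  -- the valuations
  have hval : ∀ (v : HeightOneSpectrum (𝓞 F)) (i : Fin (2 * g + 1)), ∃ n : ℤ,
      v.valuation F (γ (e i) / e i) = WithZero.exp (2 * n) := by
    intro v i
    obtain ⟨p, hp, hpv⟩ := exists_prime_mem v
    have : Fact p.Prime := ⟨hp⟩
    obtain ⟨j, rfl⟩ := exists_pls (p := p) v hpv
    have hje : ‖j (e i)‖ ≠ 0 := norm_ne_zero_iff.2 ((_root_.map_ne_zero j).2 (he i))
    have main : OneP F p → ∃ n : ℤ,
        (pls j).valuation F (γ (e i) / e i) = WithZero.exp (2 * n) := by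
      intro h1
      apply even_of_one (hr0 i)
      rw [map_div₀, norm_div, norm_conj h1, div_self hje]
    by_cases hb : ∃ i l, i ≠ l ∧ (p : ℤ) ∣ a i - a l
    · exact main (hbad p hp hb)
    · push Not at hb
      obtain ⟨z, hz0, hz⟩ := good_even (hP p j) he (i := i) fun l hl =>
        norm_one_of i l (hb i l hl.symm)
      obtain ⟨z', hz0', hz'⟩ := good_even (hP p (j.comp (γ : F →+* F))) he (i := i) fun l hl =>
        norm_one_of i l (hb i l hl.symm)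
      have hγz : γ z' / z ≠ 0 := div_ne_zero ((_root_.map_ne_zero γ).2 hz0') hz0
      refine parity j (hr0 i) hγz (t := ‖j (γ z' / z)‖) ?_ odd_one (pow_one _)
      rw [map_div₀, map_div₀, norm_div, norm_div, hz, div_pow]
      congr 1
  have hvalS : ∀ (v : HeightOneSpectrum (𝓞 F)) (S : Finset (Fin (2 * g + 1))), ∃ n : ℤ,
      v.valuation F (∏ i ∈ S, γ (e i) / e i) = WithZero.exp (2 * n) := by
    intro v S
    induction S using Finset.induction_on with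
    | empty => exact ⟨0, by simp⟩
    | insert i S hi ih =>
      obtain ⟨n, hn⟩ := ih
      obtain ⟨m, hm⟩ := hval v i
      refine ⟨m + n, ?_⟩
      rw [Finset.prod_insert hi, map_mul, hn, hm, ← WithZero.exp_add]
      congr 1
      ring
  have hpr0 : ∀ S : Finset (Fin (2 * g + 1)), ∏ i ∈ S, γ (e i) / e i ≠ 0 := fun S =>
    Finset.prod_ne_zero_iff.2 fun i _ => hr0 i
  have hRγ : ∀ φ : F →+* ℝ, LocD ℝ a (fun i => φ (γ (e i))) := fun φ =>
    hR (φ.comp (γ : F →+* F))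
  have key := hspan (fun S => ∃ y : F, y ≠ 0 ∧ ∏ i ∈ S, γ (e i) / e i = y ^ 2) ?_ ?_ ?_ ?_ i
  · obtain ⟨y, -, hy⟩ := key
    rw [Finset.prod_singleton, div_eq_iff (he i)] at hy
    exact ⟨y, by rw [hy]; ring⟩
  · obtain ⟨y, hy⟩ := elt_sq hN (Units.mk0 _ (hpr0 {0})) (by
      intro φ
      rw [Units.val_mk0, Finset.prod_singleton, map_div₀]
      exact div_pos (real_first ha (hRγ φ) fun i => (_root_.map_ne_zero φ).2 (hγ0 i))
        (real_first ha (hR φ) fun i => (_root_.map_ne_zero φ).2 (he i)))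
      (fun v => by rw [Units.val_mk0]; exact hvalS v _)
    refine ⟨y, y.ne_zero, ?_⟩
    have := congrArg Units.val hy
    simpa using this
  · intro k i j hi hj
    have hij : i ≠ j := by
      rintro rfl
      omega
    obtain ⟨y, hy⟩ := elt_sq hN (Units.mk0 _ (hpr0 {i, j})) (by
      intro φ
      rw [Units.val_mk0, Finset.prod_pair hij, map_mul, map_div₀, map_div₀, div_mul_div_comm]
      exact div_pos (real_two ha (hRγ φ) (fun i => (_root_.map_ne_zero φ).2 (hγ0 i)) hi hj)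
        (real_two ha (hR φ) (fun i => (_root_.map_ne_zero φ).2 (he i)) hi hj))
      (fun v => by rw [Units.val_mk0]; exact hvalS v _)
    refine ⟨y, y.ne_zero, ?_⟩
    have := congrArg Units.val hy
    simpa using this
  · intro S hS
    rcases S.eq_empty_or_nonempty with rfl | ⟨c, hc⟩
    · exact ⟨1, one_ne_zero, by simp⟩
    · obtain ⟨m, hm⟩ := hS.1
      obtain ⟨y, hy⟩ := sq_of_unrC hN (Units.mk0 _ (hpr0 S)) (fun v => by
        rw [Units.val_mk0]
        by_cases hv : (2 : 𝓞 F) ∈ v.asIdeal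
        · obtain ⟨j, rfl⟩ := exists_pls (p := 2) v (by exact_mod_cast hv)
          exact unr_ratio h2 γ (hP 2 j) he ha.injective hc (clus_norm ha.injective hS hc)
            (m := m) (by omega)
        · obtain ⟨n, hn⟩ := hvalS v S
          exact unrC_of_even' hv hn)
      refine ⟨y, y.ne_zero, ?_⟩
      have := congrArg Units.val hy
      simpa using this.symm
  · rintro S T ⟨y, hy0, hy⟩ ⟨z, hz0, hz⟩
    have hI0 := hpr0 (S ∩ T)
    refine ⟨y * z / ∏ i ∈ S ∩ T, γ (e i) / e i, div_ne_zero (mul_ne_zero hy0 hz0) hI0, ?_⟩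
    have h1 : (∏ i ∈ symmDiff S T, γ (e i) / e i) * (∏ i ∈ S ∩ T, γ (e i) / e i) ^ 2 =
        (∏ i ∈ S, γ (e i) / e i) * ∏ i ∈ T, γ (e i) / e i := by
      have h2 : ∏ i ∈ S, γ (e i) / e i = (∏ i ∈ S \ T, γ (e i) / e i) *
          ∏ i ∈ S ∩ T, γ (e i) / e i := by
        rw [← Finset.prod_union (Finset.disjoint_sdiff_inter S T), Finset.sdiff_union_inter]
      have h3 : ∏ i ∈ T, γ (e i) / e i = (∏ i ∈ T \ S, γ (e i) / e i) *
          ∏ i ∈ S ∩ T, γ (e i) / e i := by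
        rw [Finset.inter_comm, ← Finset.prod_union (Finset.disjoint_sdiff_inter T S),
          Finset.sdiff_union_inter]
      have h4 : ∏ i ∈ symmDiff S T, γ (e i) / e i = (∏ i ∈ S \ T, γ (e i) / e i) *
          ∏ i ∈ T \ S, γ (e i) / e i := by
        rw [← Finset.prod_union (disjoint_sdiff_sdiff)]
        rfl
      rw [h2, h3, h4]
      ring
    rw [div_pow, mul_pow, ← hy, ← hz, ← h1]
    field_simp

end final

end Pool.Agent.Helper891_JO
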