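import Pool.Agent.Y723.HJ.Sgn

/-!
# The local step for a Galois extension `Ω / K`, `Ω` algebraically closed
-/

set_option autoImplicit false
set_option linter.unusedSectionVars false
set_option linter.style.haveILetI false

namespace Pool.Agent.Helper891_JO

open Polynomial Ideal Pool.Agent.Y723.HJ

variable {g : ℕ} {a : Fin (2 * g + 1) → ℤ}

/-- rational representatives of invariant classes -/
theorem fixed_rep' (K Ω : Type) [Field K] [CharZero K] [Field Ω]
    [Algebra K Ω] [IsGalois K Ω] [HF (hpol a Ω)] [HF (hpol a K)] (P : Jac a Ω)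
    (hP : ∀ τ : Ω ≃ₐ[K] Ω, jmap a (τ : Ω →+* Ω) P = P) :
    ∃ u v : K[X], u.Monic ∧ u ∣ hpol a K - v ^ 2 ∧ (∀ i, u.eval ((a i : ℤ) : K) ≠ 0) ∧
      cl (mi (hpol a Ω) (u.map (algebraMap K Ω)) (v.map (algebraMap K Ω))) = P.toMul := by
  haveI : CharZero Ω := charZero_of_injective_algebraMap (algebraMap K Ω).injective
  have hdeg : (hpol a Ω).natDegree = 2 * g + 1 := by
    rw [pf_deg, Fintype.card_fin]
  obtain ⟨u, v, hu, huv, hug, hvu, hc⟩ := exists_reduced hdeg P.toMul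
  have hfix : ∀ τ : Ω ≃ₐ[K] Ω,
      u.map (τ : Ω →+* Ω) = u ∧ v.map (τ : Ω →+* Ω) = v := by
    intro τ
    obtain ⟨φ, hφ⟩ : ∃ φ : Ω →+* Ω, φ = τ := ⟨_, rfl⟩
    have h1 := hP τ
    rw [← hφ] at h1 ⊢
    have h2 : P = Additive.ofMul (cl (mi (hpol a Ω) u v)) := by rw [hc]; rfl
    rw [h2, jmap_mi _ hu.ne_zero] at h1
    have h3 : cl (mi (hpol a Ω) (u.map φ) (v.map φ)) =
      cl (mi (hpol a Ω) u v) := congrArg Additive.toMul h1
    have huv' : u.map φ ∣ hpol a Ω - (v.map φ) ^ 2 := by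
      have := Polynomial.map_dvd φ huv
      rwa [Polynomial.map_sub, Polynomial.map_pow, hpol_map] at this
    obtain ⟨e1, e2⟩ := reduced_unique hdeg (hu.map φ) hu huv' huv
      (by rw [natDegree_map]; exact hug) hug h3
    refine ⟨e1, ?_⟩
    have h4 : (⟨-(v.map φ), 1⟩ : CR (hpol a Ω)) ∈ mi (hpol a Ω) u v := by
      rw [← e2]; exact mi_y_mem _ _
    rw [mem_mi huv] at h4
    have h5 : u ∣ v - v.map φ := by
      convert h4 using 1
      simp only
      ring
    have h6 : (v - v.map φ).degree < u.degree := by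
      have h7 : v.degree < u.degree := by
        rw [← hvu]; exact degree_modByMonic_lt v hu
      refine (degree_sub_le _ _).trans_lt ?_
      rw [degree_map, max_self]
      exact h7
    have h7 := eq_zero_of_dvd_of_degree_lt h5 h6
    exact (sub_eq_zero.1 h7).symm
  have hlift : ∀ p : Polynomial Ω, (∀ τ : Ω ≃ₐ[K] Ω, p.map (τ : Ω →+* Ω) = p) →
      ∃ q : K[X], q.map (algebraMap K Ω) = p := by
    intro p hp
    have h1 : p ∈ Polynomial.lifts (algebraMap K Ω) := by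
      rw [lifts_iff_coeff_lifts]
      intro n
      rw [InfiniteGalois.mem_range_algebraMap_iff_fixed]
      intro τ
      have := congrArg (fun q => q.coeff n) (hp τ)
      simp only [coeff_map] at this
      exact this
    exact (mem_lifts p).1 h1
  obtain ⟨u0, rfl⟩ := hlift u fun τ => (hfix τ).1
  obtain ⟨v0, rfl⟩ := hlift v fun τ => (hfix τ).2
  have hu0 : u0.Monic := by
    rwa [Polynomial.monic_map_iff] at hu
  have huv0 : u0 ∣ hpol a K - v0 ^ 2 := by
    rw [← Polynomial.map_dvd_map' (algebraMap K Ω), Polynomial.map_sub,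
      Polynomial.map_pow, hpol_map]
    exact huv
  haveI : Infinite K := inferInstance
  classical
  obtain ⟨u', v', h1, h2, h3, h4⟩ := moving hu0 huv0
    (Finset.univ.image (fun i => ((a i : ℤ) : K))) (by
      intro α hα
      obtain ⟨i, -, rfl⟩ := Finset.mem_image.1 hα
      exact pf_eval (r := fun i => ((a i : ℤ) : K)) i)
  refine ⟨u', v', h1, h2, fun i => h4 _ (Finset.mem_image_of_mem _ (Finset.mem_univ i)), ?_⟩
  rw [← hc]
  have h5 := congrArg (clmap (algebraMap K Ω) (hpol_map a (algebraMap K Ω))) h3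
  rwa [clmap_mi _ _ h1.ne_zero, clmap_mi _ _ hu0.ne_zero] at h5

/-- the local step -/
theorem loc_core' (K Ω : Type) [Field K] [CharZero K] [Field Ω]
    [Algebra K Ω] [IsGalois K Ω] [HF (hpol a Ω)] [HF (hpol a K)] (P : Jac a Ω)
    (T : (Ω ≃ₐ[K] Ω) → Jac a Ω) (hT2 : ∀ τ, T τ + T τ = 0)
    (hTP : ∀ τ : Ω ≃ₐ[K] Ω, jmap a (τ : Ω →+* Ω) P = P + T τ)
    (d : Fin (2 * g + 1) → K) (t : Fin (2 * g + 1) → Ω)
    (ht : ∀ i, t i ^ 2 = algebraMap K Ω (d i))
    (hσ : ∀ (i : Fin (2 * g + 1)) (τ : Ω ≃ₐ[K] Ω), τ (t i) = sgn (T τ) i * t i) :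
    ∃ u v : K[X], u.Monic ∧ u ∣ hpol a K - v ^ 2 ∧ ∀ i, u.eval ((a i : ℤ) : K) ≠ 0 ∧
      ∃ k : K, (-1) ^ u.natDegree * u.eval ((a i : ℤ) : K) * d i = k ^ 2 := by
  haveI : CharZero Ω := charZero_of_injective_algebraMap (algebraMap K Ω).injective
  have hPP : ∀ τ : Ω ≃ₐ[K] Ω, jmap a (τ : Ω →+* Ω) (P + P) = P + P := by
    intro τ
    rw [map_add, hTP, add_add_add_comm, hT2, add_zero]
  obtain ⟨u, v, hu, huv, hev, hc⟩ := fixed_rep' K Ω (P + P) hPP
  obtain ⟨I, hI⟩ : ∃ I, I = mi (hpol a Ω)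
    (u.map (algebraMap K Ω)) (v.map (algebraMap K Ω)) :=
    ⟨_, rfl⟩
  rw [← hI] at hc
  have hum : (u.map (algebraMap K Ω)).Monic := hu.map _
  have huvm : u.map (algebraMap K Ω) ∣ hpol a Ω - (v.map (algebraMap K Ω)) ^ 2 := by
    have := Polynomial.map_dvd (algebraMap K Ω) huv
    rwa [Polynomial.map_sub, Polynomial.map_pow, hpol_map] at this
  have hI0 : I ≠ ⊥ := by rw [hI]; exact mi_ne hum.ne_zero
  obtain ⟨s, hs⟩ := rt_exists P hI0 hc
  -- the square
  have hsq : ∀ i, s i ^ 2 = algebraMap K Ω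
      ((-1) ^ u.natDegree * u.eval ((a i : ℤ) : K)) := by
    intro i
    rw [hs.sq hI0 i]
    unfold del
    rw [hI, nm_mi hum huvm, natDegree_map, map_mul, map_pow, map_neg, map_one, ← eval₂_at_apply,
      eval_map, map_intCast]
  -- the Galois action
  have hgal : ∀ (τ : Ω ≃ₐ[K] Ω) (i : Fin (2 * g + 1)),
      τ (s i) = sgn (T τ) i * s i := by
    intro τ i
    have h1 := rt_jmap (τ : Ω →+* Ω) hs
    have h2 : I.map (mapR (τ : Ω →+* Ω) (hpol_map a _)) = I := by
      rw [hI, map_mi, Polynomial.map_map, Polynomial.map_map]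
      have : (τ : Ω →+* Ω).comp (algebraMap K Ω) = algebraMap K Ω := by
        ext x
        exact τ.commutes x
      rw [this]
    rw [h2, hTP] at h1
    have h3 := (sgn_spec (hT2 τ)).mul hs
    rw [Ideal.top_mul] at h3
    have h4 : (P + T τ).toMul = (T τ).toMul * P.toMul := by
      rw [toMul_add, mul_comm]
    rw [h4] at h1
    exact congrFun (Rt.unique hI0 h1 h3) i
  refine ⟨u, v, hu, huv, fun i => ⟨hev i, ?_⟩⟩
  have hfix : ∀ τ : Ω ≃ₐ[K] Ω, τ (s i * t i) = s i * t i := by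
    intro τ
    rw [map_mul, hgal, hσ]
    rcases sgn_sq (hT2 τ) i with h | h <;> rw [h] <;> ring
  have hmem : s i * t i ∈ Set.range (algebraMap K Ω) := by
    rw [InfiniteGalois.mem_range_algebraMap_iff_fixed]
    exact hfix
  obtain ⟨k, hk⟩ := hmem
  refine ⟨k, ?_⟩
  apply (algebraMap K Ω).injective
  rw [map_mul, ← hsq, map_pow, hk, ← ht]
  ring

end Pool.Agent.Helper891_JO
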