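import Pool.Agent.Helper891_JO.Gl
import Pool.Agent.Helper891_JO.Fq
import Pool.Agent.Helper891_JO.Lc

/-!
# The abelian varieties `J ⊗ M`
-/

set_option autoImplicit false
set_option linter.unusedSectionVars false
set_option linter.style.haveILetI false

namespace Pool.Agent.Helper891_JO

open Polynomial NumberField IsDedekindDomain Module
open Pool.Agent.Y723.HJ
open Pool.Agent.Y682 (NCl)
open Pool.Agent.TH841.NF (lf mem_lf)

section mat

variable {G G' : Type} [AddCommGroup G] [AddCommGroup G'] {r : ℕ}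

/-- the action of integral matrices on `G ^ r` -/
def mat (B : Matrix (Fin r) (Fin r) ℤ) (P : Fin r → G) : Fin r → G := fun k => ∑ j, B k j • P j

lemma mat_one (P : Fin r → G) : mat 1 P = P := by
  classical
  funext k
  unfold mat
  rw [Finset.sum_eq_single k]
  · rw [Matrix.one_apply_eq, one_smul]
  · intro j _ hj
    rw [Matrix.one_apply_ne hj.symm, zero_smul]
  · intro h
    exact absurd (Finset.mem_univ k) h

lemma mat_mul (B C : Matrix (Fin r) (Fin r) ℤ) (P : Fin r → G) :
    mat (B * C) P = mat B (mat C P) := by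
  funext k
  unfold mat
  simp only [Matrix.mul_apply, Finset.sum_smul, Finset.smul_sum]
  rw [Finset.sum_comm]
  refine Finset.sum_congr rfl fun j _ => Finset.sum_congr rfl fun l _ => ?_
  rw [mul_smul]

lemma mat_add (B : Matrix (Fin r) (Fin r) ℤ) (P Q : Fin r → G) :
    mat B (P + Q) = mat B P + mat B Q := by
  funext k
  show ∑ j, B k j • (P j + Q j) = ∑ j, B k j • P j + ∑ j, B k j • Q j
  simp only [smul_add, Finset.sum_add_distrib]

/-- the action as a homomorphism -/
def matH (B : Matrix (Fin r) (Fin r) ℤ) : (Fin r → G) →+ (Fin r → G) :=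
  AddMonoidHom.mk' (mat B) (mat_add B)

lemma mat_addm (B C : Matrix (Fin r) (Fin r) ℤ) (P : Fin r → G) :
    mat (B + C) P = mat B P + mat C P := by
  funext k
  show ∑ j, (B + C) k j • P j = ∑ j, B k j • P j + ∑ j, C k j • P j
  simp only [Matrix.add_apply, add_smul, Finset.sum_add_distrib]

lemma mat_zerom (P : Fin r → G) : mat (0 : Matrix (Fin r) (Fin r) ℤ) P = 0 := by
  funext k
  show ∑ j, (0 : Matrix (Fin r) (Fin r) ℤ) k j • P j = 0
  simp

lemma mat_sum {ι : Type} (s : Finset ι) (B : ι → Matrix (Fin r) (Fin r) ℤ) (P : Fin r → G) :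
    mat (∑ q ∈ s, B q) P = ∑ q ∈ s, mat (B q) P := by
  classical
  induction s using Finset.induction_on with
  | empty => rw [Finset.sum_empty, Finset.sum_empty, mat_zerom]
  | insert a s ha ih => rw [Finset.sum_insert ha, Finset.sum_insert ha, mat_addm, ih]

lemma mat_map (φ : G →+ G') (B : Matrix (Fin r) (Fin r) ℤ) (P : Fin r → G) :
    mat B (fun k => φ (P k)) = fun k => φ (mat B P k) := by
  funext k
  show ∑ j, B k j • φ (P j) = φ (∑ j, B k j • P j)
  rw [map_sum]
  exact Finset.sum_congr rfl fun j _ => (map_zsmul φ _ _).symm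

end mat

section basic

variable {g : ℕ} {a : Fin (2 * g + 1) → ℤ}

lemma lc_map (p : QB[X]) : IsLocallyConstant (fun σ : GQ => p.map (σ : QB →+* QB)) := by
  haveI := galQB
  induction p using Polynomial.induction_on' with
  | add p q hp hq =>
    have h : (fun σ : GQ => (p + q).map (σ : QB →+* QB)) =
        (fun σ : GQ => p.map (σ : QB →+* QB)) + (fun σ : GQ => q.map (σ : QB →+* QB)) := by
      funext σ
      rw [Pi.add_apply, Polynomial.map_add]
    rw [h]
    exact hp.add hq
  | monomial n c =>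
    have h : (fun σ : GQ => (monomial n c).map (σ : QB →+* QB)) =
        (fun x : QB => monomial n x) ∘ (fun σ : GQ => σ c) := by
      funext σ
      rw [Polynomial.map_monomial]
      rfl
    rw [h]
    exact (locConst_apply c).comp _

lemma lc_act [HF (hpol a QB)] (P : Jac a QB) : IsLocallyConstant (fun σ : GQ => act a σ P) := by
  haveI := charQB
  obtain ⟨u, v, hu, huv, h⟩ := exists_cl_mi P.toMul
  have h' : P = Additive.ofMul (cl (mi (hpol a QB) u v)) := by rw [h]; rfl
  have h2 : (fun σ : GQ => act a σ P) =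
      (fun w : QB[X] × QB[X] => (Additive.ofMul (cl (mi (hpol a QB) w.1 w.2)) : Jac a QB)) ∘
        (fun σ : GQ => (u.map (σ : QB →+* QB), v.map (σ : QB →+* QB))) := by
    funext σ
    rw [h']
    exact jmap_mi _ hu.ne_zero
  rw [h2]
  exact ((lc_map u).prodMk (lc_map v)).comp _

lemma jmap_sq {F L L' E : Type} [Field F] [Field L] [Field L'] [Field E] [CharZero F] [CharZero L]
    [CharZero L'] [CharZero E] [HF (hpol a F)] [HF (hpol a L)] [HF (hpol a L')] [HF (hpol a E)]
    (φ : F →+* L) (ψ : L →+* E) (φ' : F →+* L') (ψ' : L' →+* E) (h : ∀ x, ψ (φ x) = ψ' (φ' x))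
    (P : Jac a F) : jmap a ψ (jmap a φ P) = jmap a ψ' (jmap a φ' P) := by
  rw [jmap_comp, jmap_comp]
  have h' : ψ.comp φ = ψ'.comp φ' := RingHom.ext h
  rw [h']

lemma act_mul [HF (hpol a QB)] (σ τ : GQ) (R : Jac a QB) :
    act a (σ * τ) R = act a σ (act a τ R) := by
  have hcQ := charQB
  have h := jmap_comp (τ : QB →+* QB) (σ : QB →+* QB) R
  exact h.symm

lemma act_one [HF (hpol a QB)] (R : Jac a QB) : act a 1 R = R := by
  obtain ⟨u, v, hu, huv, h⟩ := exists_cl_mi R.toMul
  have h' : R = Additive.ofMul (cl (mi (hpol a QB) u v)) := by rw [h]; rfl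
  have hcQ := charQB
  rw [h']
  have h1 := jmap_mi (a := a) ((1 : GQ) : QB →+* QB) (u := u) (v := v) hu.ne_zero
  refine h1.trans ?_
  have e : ∀ p : QB[X], p.map ((1 : GQ) : QB →+* QB) = p := fun p => by
    conv_rhs => rw [← Polynomial.map_id (p := p)]
    congr 1
  rw [e, e]

lemma act_tor [HF (hpol a QB)] (σ : GQ) {T : Jac a QB} (hT : T + T = 0) : act a σ T = T := by
  haveI := charQB
  exact tor_fix _ hT

end basic

section coc

variable {g : ℕ} (a : Fin (2 * g + 1) → ℤ) {r : ℕ} (R : GQ → Matrix (Fin r) (Fin r) ℤ)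

/-- the action on the points of `J ⊗ M` -/
noncomputable def actM (σ : GQ) (P : Fin r → Jac a QB) : Fin r → Jac a QB :=
  mat (R σ) (fun k => act a σ (P k))

/-- the action as a homomorphism -/
noncomputable def actH (σ : GQ) : (Fin r → Jac a QB) →+ (Fin r → Jac a QB) :=
  AddMonoidHom.mk' (actM a R σ) (fun P Q => by
    unfold actM
    rw [← mat_add]
    exact congrArg (mat (R σ)) (funext fun k => map_add (act a σ) (P k) (Q k)))

lemma actH_apply (σ : GQ) (P : Fin r → Jac a QB) : actH a R σ P = actM a R σ P := rfl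

/-- continuous cocycles -/
def IsCoc (f : GQ → Fin r → Jac a QB) : Prop :=
  IsLocallyConstant f ∧ ∀ σ τ, f (σ * τ) = f σ + actM a R σ (f τ)

/-- coboundaries -/
def IsCob (f : GQ → Fin r → Jac a QB) : Prop := ∃ P, ∀ σ, f σ = actM a R σ P - P

/-- local triviality -/
def LocT (K : Type) [Field K] (f : GQ → Fin r → Jac a QB) : Prop :=
  ∀ ι : QB →+* AlgebraicClosure K, ∃ P : Fin r → Jac a (AlgebraicClosure K),
    ∀ (τ : AlgebraicClosure K ≃ₐ[K] AlgebraicClosure K) (σ : GQ), (∀ x, τ (ι x) = ι (σ x)) →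
      (fun k => jmap a ι (f σ k)) =
        mat (R σ) (fun k => jmap a (τ : AlgebraicClosure K →+* AlgebraicClosure K) (P k)) - P

variable {a R}

lemma actM_mul [HF (hpol a QB)] (hRm : ∀ σ τ, R (σ * τ) = R σ * R τ) (σ τ : GQ)
    (P : Fin r → Jac a QB) : actM a R (σ * τ) P = actM a R σ (actM a R τ P) := by
  unfold actM
  rw [hRm, mat_mul]
  have h := mat_map (act a σ) (R τ) (fun k => act a τ (P k))
  rw [← h]
  exact congrArg (fun z => mat (R σ) (mat (R τ) z)) (funext fun k => act_mul σ τ (P k))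

lemma actM_tor [HF (hpol a QB)] (σ : GQ) {P : Fin r → Jac a QB} (hP : P + P = 0) :
    actM a R σ P = mat (R σ) P := by
  exact congrArg (mat (R σ)) (funext fun k => act_tor σ (congrFun hP k))

variable {F : Type} [Field F] [NumberField F] [IsGalois ℚ F] (i : F →+* QB)

lemma R_lc (hRm : ∀ σ τ, R (σ * τ) = R σ * R τ) (hRH : ∀ σ ∈ HQ i, R σ = 1) :
    IsLocallyConstant R := by
  rw [IsLocallyConstant.iff_exists_open]
  intro σ
  refine ⟨(fun τ => σ⁻¹ * τ) ⁻¹' (HQ i : Set GQ), (HQ_open i).preimage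
    (continuous_const_mul σ⁻¹), ?_, ?_⟩
  · show σ⁻¹ * σ ∈ HQ i
    rw [inv_mul_cancel]
    exact one_mem _
  · intro τ hτ
    have h1 : R (σ⁻¹ * τ) = 1 := hRH _ hτ
    have h2 := hRm σ (σ⁻¹ * τ)
    rw [mul_inv_cancel_left, h1, mul_one] at h2
    exact h2

lemma cob_lc [HF (hpol a QB)] (hRm : ∀ σ τ, R (σ * τ) = R σ * R τ) (hRH : ∀ σ ∈ HQ i, R σ = 1)
    (P : Fin r → Jac a QB) : IsLocallyConstant (fun σ => actM a R σ P - P) := by
  have h1 := R_lc (R := R) i hRm hRH
  have h2 : IsLocallyConstant (fun σ : GQ => fun k => act a σ (P k)) := by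
    rw [IsLocallyConstant.iff_exists_open]
    intro σ
    have h3 : ∀ k, ∃ U : Set GQ, IsOpen U ∧ σ ∈ U ∧ ∀ τ ∈ U, act a τ (P k) = act a σ (P k) :=
      fun k => (IsLocallyConstant.iff_exists_open _).1 (lc_act (P k)) σ
    choose U hU hσU hUf using h3
    exact ⟨⋂ k, U k, isOpen_iInter_of_finite hU, Set.mem_iInter.2 hσU, fun τ hτ =>
      funext fun k => hUf k τ (Set.mem_iInter.1 hτ k)⟩
  exact (h1.prodMk h2).comp (fun z => mat z.1 z.2 - P)

lemma cob_coc [HF (hpol a QB)] (hRm : ∀ σ τ, R (σ * τ) = R σ * R τ) (hRH : ∀ σ ∈ HQ i, R σ = 1)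
    (P : Fin r → Jac a QB) : IsCoc a R (fun σ => actM a R σ P - P) := by
  refine ⟨cob_lc i hRm hRH P, fun σ τ => ?_⟩
  show actM a R (σ * τ) P - P = actM a R σ P - P + actM a R σ (actM a R τ P - P)
  have h := map_sub (actH a R σ) (actM a R τ P) P
  simp only [actH_apply] at h
  rw [h, actM_mul hRm]
  abel

lemma cob_locT (ha : Function.Injective a) [HF (hpol a QB)] (K : Type) [Field K] [CharZero K]
    (P : Fin r → Jac a QB) : LocT a R K (fun σ => actM a R σ P - P) := by
  intro ι
  haveI := charQB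
  haveI : CharZero (AlgebraicClosure K) :=
    charZero_of_injective_algebraMap (algebraMap K (AlgebraicClosure K)).injective
  haveI : HF (hpol a (AlgebraicClosure K)) := hpolHF ha _
  refine ⟨fun k => jmap a ι (P k), fun τ σ h => ?_⟩
  funext k
  have h1 := congrFun (mat_map (jmap a ι) (R σ) (fun k => act a σ (P k))) k
  have h2 : (fun k => jmap a ι (act a σ (P k))) = fun k =>
      jmap a (τ : AlgebraicClosure K →+* AlgebraicClosure K) (jmap a ι (P k)) := by
    funext k
    exact jmap_sq (σ : QB →+* QB) ι ι (τ : AlgebraicClosure K →+* AlgebraicClosure K)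
      (fun x => (h x).symm) (P k)
  have h3 := map_sub (jmap a ι) (mat (R σ) (fun k => act a σ (P k)) k) (P k)
  rw [h2] at h1
  exact h3.trans (congrArg (fun z => z - jmap a ι (P k)) h1.symm)

lemma locT_add {K : Type} [Field K] {f f' : GQ → Fin r → Jac a QB} (h : LocT a R K f)
    (h' : LocT a R K f') : LocT a R K (fun σ => f σ + f' σ) := by
  intro ι
  obtain ⟨P, hP⟩ := h ι
  obtain ⟨P', hP'⟩ := h' ι
  refine ⟨P + P', fun τ σ hτ => ?_⟩
  have h1 := hP τ σ hτ
  have h2 := hP' τ σ hτ
  have e1 : (fun k => jmap a ι (f σ k + f' σ k)) = (fun k => jmap a ι (f σ k)) +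
      (fun k => jmap a ι (f' σ k)) := by
    funext k
    exact map_add _ _ _
  have e2 : (fun k => jmap a (τ : AlgebraicClosure K →+* AlgebraicClosure K) ((P + P') k)) =
      (fun k => jmap a (τ : AlgebraicClosure K →+* AlgebraicClosure K) (P k)) +
        (fun k => jmap a (τ : AlgebraicClosure K →+* AlgebraicClosure K) (P' k)) := by
    funext k
    exact map_add _ _ _
  show (fun k => jmap a ι (f σ k + f' σ k)) = _
  rw [e1, e2, mat_add, h1, h2]
  abel

lemma locT_neg {K : Type} [Field K] {f : GQ → Fin r → Jac a QB} (h : LocT a R K f) :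
    LocT a R K (fun σ => -f σ) := by
  intro ι
  obtain ⟨P, hP⟩ := h ι
  refine ⟨-P, fun τ σ hτ => ?_⟩
  have h1 := hP τ σ hτ
  have e1 : (fun k => jmap a ι ((-f σ) k)) = -(fun k => jmap a ι (f σ k)) := by
    funext k
    exact map_neg _ _
  have e2 : (fun k => jmap a (τ : AlgebraicClosure K →+* AlgebraicClosure K) ((-P) k)) =
      -(fun k => jmap a (τ : AlgebraicClosure K →+* AlgebraicClosure K) (P k)) := by
    funext k
    exact map_neg _ _
  have e3 := map_neg (matH (R σ)) (fun k =>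
    jmap a (τ : AlgebraicClosure K →+* AlgebraicClosure K) (P k))
  show (fun k => jmap a ι ((-f σ) k)) = _
  rw [e1, e2, h1]
  refine Eq.trans ?_ (congrArg (fun z => z - -P) e3.symm)
  show _ = -mat (R σ) _ - -P
  abel

lemma coc_sub {f f' : GQ → Fin r → Jac a QB} (h : IsCoc a R f)
    (h' : IsCoc a R f') : IsCoc a R (fun σ => f σ - f' σ) := by
  refine ⟨h.1.sub h'.1, fun σ τ => ?_⟩
  show f (σ * τ) - f' (σ * τ) = f σ - f' σ + actM a R σ (f τ - f' τ)
  have h1 := map_sub (actH a R σ) (f τ) (f' τ)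
  simp only [actH_apply] at h1
  rw [h1, h.2, h'.2]
  abel

end coc

end Pool.Agent.Helper891_JO
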