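import Pool.Agent.Y723.HJ.Def

/-!
# The real place
-/

set_option autoImplicit false
set_option linter.unusedSectionVars false

namespace Pool.Agent.Helper891_JO

open Polynomial Filter Set Pool.Agent.Y723.HJ

variable {g : ℕ} {a : Fin (2 * g + 1) → ℤ}

lemma hpol_eval (L : Type) [Field L] (x : L) : (hpol a L).eval x = ∏ l, (x - ((a l : ℤ) : L)) := by
  unfold hpol pf
  rw [eval_prod]
  simp

/-- the sign of `f` -/
lemma hpol_neg {x : ℝ} (h0 : ∀ l, x ≠ ((a l : ℤ) : ℝ))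
    (hS : Odd (Finset.univ.filter fun l => x < ((a l : ℤ) : ℝ)).card) :
    (hpol a ℝ).eval x < 0 := by
  classical
  rw [hpol_eval, ← Finset.prod_filter_mul_prod_filter_not Finset.univ
    (fun l => x < ((a l : ℤ) : ℝ))]
  have h1 : ∏ l ∈ Finset.univ.filter (fun l => x < ((a l : ℤ) : ℝ)), (x - ((a l : ℤ) : ℝ)) < 0 := by
    have h2 : ∀ l ∈ Finset.univ.filter (fun l => x < ((a l : ℤ) : ℝ)), (x - ((a l : ℤ) : ℝ)) =
        (-1) * (((a l : ℤ) : ℝ) - x) := fun l _ => by ring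
    rw [Finset.prod_congr rfl h2, Finset.prod_mul_distrib, Finset.prod_const, hS.neg_one_pow]
    have h3 : 0 < ∏ l ∈ Finset.univ.filter (fun l => x < ((a l : ℤ) : ℝ)),
        (((a l : ℤ) : ℝ) - x) := by
      refine Finset.prod_pos fun l hl => ?_
      rw [Finset.mem_filter] at hl
      linarith [hl.2]
    linarith
  have h4 : 0 < ∏ l ∈ Finset.univ.filter (fun l => ¬ x < ((a l : ℤ) : ℝ)),
      (x - ((a l : ℤ) : ℝ)) := by
    refine Finset.prod_pos fun l hl => ?_
    rw [Finset.mem_filter] at hl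
    have h5 := h0 l
    have h6 : ((a l : ℤ) : ℝ) ≤ x := not_lt.1 hl.2
    have h7 := lt_of_le_of_ne h6 (Ne.symm h5)
    linarith
  exact mul_neg_of_neg_of_pos h1 h4

lemma root_sq {L : Type} [Field L] {u v : L[X]} (huv : u ∣ hpol a L - v ^ 2) {x : L}
    (hx : u.eval x = 0) : (hpol a L).eval x = v.eval x ^ 2 := by
  obtain ⟨w, hw⟩ := huv
  have h1 := congrArg (eval x) hw
  rw [eval_sub, eval_mul, hx, zero_mul, eval_pow, sub_eq_zero] at h1
  exact h1

/-- the first sign -/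
theorem real_zero (ha : StrictMono a) {u v : ℝ[X]} (hu : u.Monic) (huv : u ∣ hpol a ℝ - v ^ 2)
    (h0 : ∀ i, u.eval ((a i : ℤ) : ℝ) ≠ 0) :
    0 < (-1) ^ u.natDegree * u.eval ((a 0 : ℤ) : ℝ) := by
  have hno : ∀ x : ℝ, x ≤ ((a 0 : ℤ) : ℝ) → u.eval x ≠ 0 := by
    intro x hx h
    have h1 := root_sq huv h
    have hne : ∀ l, x ≠ ((a l : ℤ) : ℝ) := by
      rintro l rfl
      exact h0 l h
    have hlt : ∀ l, x < ((a l : ℤ) : ℝ) := by
      intro l
      have h2 : ((a 0 : ℤ) : ℝ) ≤ ((a l : ℤ) : ℝ) := by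
        exact_mod_cast ha.monotone (Fin.zero_le l)
      exact lt_of_le_of_ne (hx.trans h2) (hne l)
    have h2 := hpol_neg hne (by
      rw [Finset.filter_true_of_mem fun l _ => hlt l, Finset.card_univ, Fintype.card_fin]
      exact ⟨g, rfl⟩)
    rw [h1] at h2
    exact absurd h2 (not_lt.2 (sq_nonneg _))
  by_contra hcon
  rw [not_lt] at hcon
  set n := u.natDegree with hn
  set w : ℝ[X] := C ((-1) ^ n) * u.comp (-X) with hw
  have hwe : ∀ t, w.eval t = (-1) ^ n * u.eval (-t) := by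
    intro t
    rw [hw, eval_mul, eval_C, eval_comp, eval_neg, eval_X]
  have hn0 : 0 < n := by
    rcases Nat.eq_zero_or_pos n with h | h
    · exfalso
      have h1 := eq_one_of_monic_natDegree_zero hu h
      rw [h1, h] at hcon
      simp at hcon
      linarith
    · exact h
  have hlead : w.leadingCoeff = 1 := by
    rw [hw, leadingCoeff_mul, leadingCoeff_C, leadingCoeff_comp (by simp), hu.leadingCoeff]
    simp only [leadingCoeff_neg, leadingCoeff_X, one_mul, ← hn]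
    rw [← mul_pow]
    norm_num
  have hwd : 0 < w.degree := by
    rw [← natDegree_pos_iff_degree_pos, hw, natDegree_C_mul (pow_ne_zero _ (by norm_num)),
      natDegree_comp]
    simp [← hn, hn0]
  have hlim := w.tendsto_atTop_of_leadingCoeff_nonneg hwd (by rw [hlead]; norm_num)
  obtain ⟨t, ht, ht'⟩ := ((hlim.eventually_gt_atTop 0).and
    (eventually_ge_atTop (-((a 0 : ℤ) : ℝ)))).exists
  have hcont : ContinuousOn (fun t => w.eval t) (Icc (-((a 0 : ℤ) : ℝ)) t) :=
    w.continuous.continuousOn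
  have hI := intermediate_value_Icc ht' hcont
  have h1 : (0 : ℝ) ∈ Icc (w.eval (-((a 0 : ℤ) : ℝ))) (w.eval t) := by
    refine ⟨?_, ht.le⟩
    rw [hwe, neg_neg]
    exact hcon
  obtain ⟨z, ⟨hz1, hz2⟩, hz⟩ := hI h1
  simp only [hwe] at hz
  rcases mul_eq_zero.1 hz with h2 | h2
  · exact pow_ne_zero _ (by norm_num) h2
  · exact hno (-z) (by linarith) h2

/-- the other signs -/
theorem real_pair (ha : StrictMono a) {u v : ℝ[X]} (huv : u ∣ hpol a ℝ - v ^ 2)
    (h0 : ∀ i, u.eval ((a i : ℤ) : ℝ) ≠ 0) {i j : Fin (2 * g + 1)} {k : ℕ}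
    (hi : (i : ℕ) = 2 * k + 1) (hj : (j : ℕ) = 2 * k + 2) :
    0 < u.eval ((a i : ℤ) : ℝ) * u.eval ((a j : ℤ) : ℝ) := by
  by_contra hcon
  rw [not_lt] at hcon
  have hij : i < j := by
    rw [Fin.lt_def]
    omega
  have haij : ((a i : ℤ) : ℝ) < ((a j : ℤ) : ℝ) := by exact_mod_cast ha hij
  have hI := intermediate_value_uIcc (a := ((a i : ℤ) : ℝ)) (b := ((a j : ℤ) : ℝ))
    (f := fun t => u.eval t) u.continuous.continuousOn
  have h1 : (0 : ℝ) ∈ uIcc (u.eval ((a i : ℤ) : ℝ)) (u.eval ((a j : ℤ) : ℝ)) := by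
    rw [Set.mem_uIcc]
    rcases mul_nonpos_iff.1 hcon with h | h
    · exact Or.inr ⟨h.2, h.1⟩
    · exact Or.inl ⟨h.1, h.2⟩
  obtain ⟨x, hx, hx0⟩ := hI h1
  simp only at hx0
  rw [Set.uIcc_of_le haij.le] at hx
  have hne : ∀ l, x ≠ ((a l : ℤ) : ℝ) := by
    rintro l rfl
    exact h0 l hx0
  have hx1 : ((a i : ℤ) : ℝ) < x := lt_of_le_of_ne hx.1 (Ne.symm (hne i))
  have hx2 : x < ((a j : ℤ) : ℝ) := lt_of_le_of_ne hx.2 (hne j)
  have h2 := hpol_neg hne (by
    have h3 : (Finset.univ.filter fun l => x < ((a l : ℤ) : ℝ)) = Finset.Ici j := by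
      ext l
      rw [Finset.mem_filter, Finset.mem_Ici]
      constructor
      · rintro ⟨-, h⟩
        by_contra hl
        rw [not_le] at hl
        have h4 : l ≤ i := by
          rw [Fin.le_def]
          rw [Fin.lt_def] at hl
          omega
        have h5 : ((a l : ℤ) : ℝ) ≤ ((a i : ℤ) : ℝ) := by exact_mod_cast ha.monotone h4
        linarith
      · intro h
        refine ⟨Finset.mem_univ _, ?_⟩
        have h5 : ((a j : ℤ) : ℝ) ≤ ((a l : ℤ) : ℝ) := by exact_mod_cast ha.monotone h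
        linarith
    rw [h3, Fin.card_Ici]
    have h6 := j.isLt
    refine ⟨g - k - 1, ?_⟩
    omega)
  rw [root_sq huv hx0] at h2
  exact absurd h2 (not_lt.2 (sq_nonneg _))

end Pool.Agent.Helper891_JO
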