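import Pool.Agent.Helper891_RP.Loc
import Pool.Agent.Helper891_JO.Rl

/-!
# Even clusters of roots at the place above two
-/

set_option autoImplicit false
set_option linter.unusedSectionVars false

namespace Pool.Agent.Helper891_JO

open Polynomial
open Pool.Agent.Y723.HJ (hpol hpol_map)
open Pool.Agent.Y715.Nr Pool.Agent.Y715.Red

section sq1

lemma norm_two2 : ‖(2 : PadicAlgCl 2)‖ = 1 / 2 := by
  have h := Pool.Agent.W571.RK.norm_p_Om (p := 2)
  rw [Nat.cast_ofNat] at h
  rw [h]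
  norm_num

lemma exists_sq1 {z : PadicAlgCl 2} (hz : ‖z - 1‖ < 1 / 4) : ∃ r, ‖r - 1‖ < 1 / 2 ∧ r ^ 2 = z := by
  obtain ⟨r, hr⟩ : ∃ r, r ^ 2 = z := IsAlgClosed.exists_pow_nat_eq z (by norm_num)
  by_cases h1 : ‖r - 1‖ < 1 / 2
  · exact ⟨r, h1, hr⟩
  · refine ⟨-r, ?_, by rw [neg_sq, hr]⟩
    by_contra h2
    rw [not_lt] at h1 h2
    have h3 : z - 1 = (r - 1) * (r + 1) := by rw [← hr]; ring
    have h4 : ‖-r - 1‖ = ‖r + 1‖ := by rw [← norm_neg]; congr 1; ring
    rw [h3, norm_mul, ← h4] at hz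
    nlinarith

lemma sq1_unique {r r' : PadicAlgCl 2} (h : ‖r - 1‖ < 1 / 2) (h' : ‖r' - 1‖ < 1 / 2)
    (e : r ^ 2 = r' ^ 2) : r = r' := by
  rcases sq_eq_sq_iff_eq_or_eq_neg.1 e with h1 | h1
  · exact h1
  · exfalso
    have h2 : ‖(2 : PadicAlgCl 2)‖ < 1 / 2 := by
      have e : (2 : PadicAlgCl 2) = -(r - 1) - (r' - 1) := by rw [h1]; ring
      rw [e]
      exact sub_lt (by rwa [norm_neg]) h'
    rw [norm_two2] at h2
    exact lt_irrefl _ h2

open Classical in
/-- the square root near one -/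
noncomputable def sq1 (z : PadicAlgCl 2) : PadicAlgCl 2 :=
  if h : ‖z - 1‖ < 1 / 4 then (exists_sq1 h).choose else 1

lemma sq1_spec {z : PadicAlgCl 2} (h : ‖z - 1‖ < 1 / 4) : ‖sq1 z - 1‖ < 1 / 2 ∧ sq1 z ^ 2 = z := by
  unfold sq1
  rw [dif_pos h]
  exact (exists_sq1 h).choose_spec

lemma sq1_map (τ : Au 2) (z : PadicAlgCl 2) : sq1 (τ z) = τ (sq1 z) := by
  have e : ∀ y : PadicAlgCl 2, ‖τ y - 1‖ = ‖y - 1‖ := fun y => by
    rw [← nrm τ (y - 1), map_sub, map_one]
  by_cases h : ‖z - 1‖ < 1 / 4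
  · have h' : ‖τ z - 1‖ < 1 / 4 := by rwa [e]
    apply sq1_unique (sq1_spec h').1 (by rw [e]; exact (sq1_spec h).1)
    rw [(sq1_spec h').2, ← map_pow, (sq1_spec h).2]
  · unfold sq1
    rw [dif_neg h, dif_neg (by rwa [e]), map_one]

lemma prod_near {ι : Type*} (s : Finset ι) (f : ι → PadicAlgCl 2) {r : ℝ} (hr0 : 0 < r)
    (hr : r ≤ 1) (h : ∀ i ∈ s, ‖f i - 1‖ < r) : ‖∏ i ∈ s, f i - 1‖ < r := by
  classical
  induction s using Finset.induction_on with
  | empty => rw [Finset.prod_empty, sub_self, norm_zero]; exact hr0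
  | insert i s hi ih =>
    rw [Finset.prod_insert hi]
    have h1 := h i (Finset.mem_insert_self _ _)
    have h2 := ih fun j hj => h j (Finset.mem_insert_of_mem hj)
    have h3 : ‖f i‖ = 1 := by
      have e : f i = 1 + (f i - 1) := by ring
      rw [e, eq_of_lt (by rw [norm_one]; linarith), norm_one]
    have e : f i * ∏ j ∈ s, f j - 1 = f i * (∏ j ∈ s, f j - 1) + (f i - 1) := by ring
    rw [e]
    exact add_lt (by rw [norm_mul, h3, one_mul]; exact h2) h1

end sq1

section cluster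

variable {g : ℕ} (a : Fin (2 * g + 1) → ℤ) (S : Finset (Fin (2 * g + 1))) (c : Fin (2 * g + 1))

/-- the roots -/
noncomputable abbrev A (p : ℕ) [Fact p.Prime] (i : Fin (2 * g + 1)) : PadicAlgCl p :=
  ((a i : ℤ) : PadicAlgCl p)

/-- `x` is far from the cluster -/
def Far (x : PadicAlgCl 2) : Prop := ∀ i ∈ S, ‖(A a 2 c - A a 2 i) / (x - A a 2 c)‖ < 1 / 4

open Classical in
/-- the function that is near one -/
noncomputable def qq (x : PadicAlgCl 2) : PadicAlgCl 2 :=
  if Far a S c x then ∏ i ∈ S, (1 + (A a 2 c - A a 2 i) / (x - A a 2 c))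
  else ∏ l ∈ Sᶜ, (1 + (x - A a 2 c) / (A a 2 c - A a 2 l))

open Classical in
/-- the square root -/
noncomputable def ww (v : (PadicAlgCl 2)[X]) (m : ℕ) (x : PadicAlgCl 2) : PadicAlgCl 2 :=
  if Far a S c x then (x - A a 2 c) ^ m * sq1 (qq a S c x) else v.eval x / sq1 (qq a S c x)

lemma far_map (τ : Au 2) (x : PadicAlgCl 2) : Far a S c (τ x) ↔ Far a S c x := by
  unfold Far
  refine forall_congr' fun i => imp_congr_right fun _ => ?_
  have e : (A a 2 c - A a 2 i) / (τ x - A a 2 c) = τ ((A a 2 c - A a 2 i) / (x - A a 2 c)) := by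
    rw [map_div₀, map_sub, map_sub, map_intCast, map_intCast]
  rw [e, nrm]

lemma qq_map (τ : Au 2) (x : PadicAlgCl 2) : qq a S c (τ x) = τ (qq a S c x) := by
  classical
  unfold qq
  by_cases h : Far a S c x
  · rw [if_pos h, if_pos ((far_map a S c τ x).2 h), map_prod]
    refine Finset.prod_congr rfl fun i _ => ?_
    rw [map_add, map_one, map_div₀, map_sub, map_sub, map_intCast, map_intCast]
  · rw [if_neg h, if_neg (fun h' => h ((far_map a S c τ x).1 h')), map_prod]
    refine Finset.prod_congr rfl fun i _ => ?_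
    rw [map_add, map_one, map_div₀, map_sub, map_sub, map_intCast, map_intCast]

lemma ww_map {v : (PadicAlgCl 2)[X]} {m : ℕ} (τ : Au 2)
    (hv : v.map (τ : PadicAlgCl 2 →+* PadicAlgCl 2) = v) (x : PadicAlgCl 2) :
    ww a S c v m (τ x) = τ (ww a S c v m x) := by
  classical
  unfold ww
  by_cases h : Far a S c x
  · rw [if_pos h, if_pos ((far_map a S c τ x).2 h), map_mul, map_pow, map_sub, map_intCast,
      qq_map, sq1_map]
  · rw [if_neg h, if_neg (fun h' => h ((far_map a S c τ x).1 h')), map_div₀, qq_map, sq1_map]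
    congr 1
    have h1 := eval₂_at_apply (p := v) (τ : PadicAlgCl 2 →+* PadicAlgCl 2) x
    rw [eval₂_eq_eval_map, hv] at h1
    exact h1

variable {a S c}

lemma qq_near (ha : Function.Injective a) (hc : c ∈ S)
    (hcl : ∀ i ∈ S, ∀ l ∉ S, ‖A a 2 c - A a 2 i‖ ≤ ‖A a 2 c - A a 2 l‖ / 32)
    {x : PadicAlgCl 2} (hx : x ≠ A a 2 c) : ‖qq a S c x - 1‖ < 1 / 4 := by
  classical
  unfold qq
  have hx' : 0 < ‖x - A a 2 c‖ := norm_pos_iff.2 (sub_ne_zero.2 hx)
  by_cases h : Far a S c x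
  · rw [if_pos h]
    refine prod_near _ _ (by norm_num) (by norm_num) fun i hi => ?_
    rw [add_sub_cancel_left]
    exact h i hi
  · rw [if_neg h]
    unfold Far at h
    push Not at h
    obtain ⟨i, hi, h1⟩ := h
    rw [norm_div, le_div_iff₀ hx'] at h1
    refine prod_near _ _ (by norm_num) (by norm_num) fun l hl => ?_
    rw [Finset.mem_compl] at hl
    have h2 := hcl i hi l hl
    have hne : A a 2 c - A a 2 l ≠ 0 := by
      rw [sub_ne_zero]
      intro h3
      have h4 : a c = a l := by exact_mod_cast h3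
      exact hl (ha h4 ▸ hc)
    have h3 : 0 < ‖A a 2 c - A a 2 l‖ := norm_pos_iff.2 hne
    rw [add_sub_cancel_left, norm_div, div_lt_iff₀ h3]
    linarith

lemma ww_sq (ha : Function.Injective a) (hc : c ∈ S)
    (hcl : ∀ i ∈ S, ∀ l ∉ S, ‖A a 2 c - A a 2 i‖ ≤ ‖A a 2 c - A a 2 l‖ / 32)
    {v : (PadicAlgCl 2)[X]} {m : ℕ} (hm : S.card = 2 * m) {x : PadicAlgCl 2}
    (hx : x ≠ A a 2 c) (hf : (hpol a (PadicAlgCl 2)).eval x = v.eval x ^ 2) :
    ∃ e : ℕ, ww a S c v m x ^ 2 = (∏ i ∈ S, (x - A a 2 i)) *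
      (∏ l ∈ Sᶜ, (A a 2 c - A a 2 l)) ^ e := by
  classical
  have hx0 : x - A a 2 c ≠ 0 := sub_ne_zero.2 hx
  obtain ⟨h1, h2⟩ := sq1_spec (qq_near ha hc hcl hx)
  unfold ww
  by_cases h : Far a S c x
  · refine ⟨0, ?_⟩
    rw [if_pos h, mul_pow, h2, pow_zero, mul_one, ← pow_mul, mul_comm m 2, ← hm]
    unfold qq
    rw [if_pos h, ← Finset.prod_const, ← Finset.prod_mul_distrib]
    refine Finset.prod_congr rfl fun i _ => ?_
    field_simp
    ring
  · refine ⟨1, ?_⟩
    rw [if_neg h, div_pow, h2, pow_one]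
    unfold qq
    rw [if_neg h]
    have hne : ∀ l ∈ Sᶜ, A a 2 c - A a 2 l ≠ 0 := by
      intro l hl
      rw [Finset.mem_compl] at hl
      rw [sub_ne_zero]
      intro h3
      have h4 : a c = a l := by exact_mod_cast h3
      exact hl (ha h4 ▸ hc)
    have h3 : ∏ l ∈ Sᶜ, (1 + (x - A a 2 c) / (A a 2 c - A a 2 l)) ≠ 0 := by
      have h4 := qq_near ha hc hcl hx
      unfold qq at h4
      rw [if_neg h] at h4
      intro h0
      rw [h0, zero_sub, norm_neg, norm_one] at h4
      norm_num at h4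
    rw [div_eq_iff h3, ← hf, hpol_eval, mul_assoc, ← Finset.prod_mul_distrib,
      ← Finset.prod_mul_prod_compl S]
    congr 1
    refine Finset.prod_congr rfl fun l hl => ?_
    have h5 := hne l hl
    field_simp
    ring

end cluster

section roots

variable {p : ℕ} [Fact p.Prime] {K : IntermediateField ℚ_[p] (PadicAlgCl p)}

lemma galK : IsGalois K (PadicAlgCl p) := by
  have : IsGalois ℚ_[p] (PadicAlgCl p) := galOm
  exact IsGalois.tower_top_intermediateField K

lemma map_fix (u : K[X]) (τ : PadicAlgCl p ≃ₐ[K] PadicAlgCl p) :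
    (u.map (algebraMap K (PadicAlgCl p))).map (τ : PadicAlgCl p →+* PadicAlgCl p) =
      u.map (algebraMap K (PadicAlgCl p)) := by
  rw [Polynomial.map_map]
  congr 1
  ext x
  exact τ.commutes x

lemma roots_fix (u : K[X]) (τ : PadicAlgCl p ≃ₐ[K] PadicAlgCl p) :
    ((u.map (algebraMap K (PadicAlgCl p))).roots).map τ =
      (u.map (algebraMap K (PadicAlgCl p))).roots := by
  have h := Polynomial.Splits.roots_map_of_injective
    (IsAlgClosed.splits (u.map (algebraMap K (PadicAlgCl p))))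
    (i := (τ : PadicAlgCl p →+* PadicAlgCl p)) τ.injective
  rw [map_fix] at h
  exact h.symm

lemma delta {u : K[X]} (hu : u.Monic) (z : K) :
    algebraMap K (PadicAlgCl p) ((-1) ^ u.natDegree * u.eval z) =
      ((u.map (algebraMap K (PadicAlgCl p))).roots.map
        (fun x => x - algebraMap K (PadicAlgCl p) z)).prod := by
  have hsp := IsAlgClosed.splits (u.map (algebraMap K (PadicAlgCl p)))
  have h1 := hsp.eval_eq_prod_roots_of_monic (hu.map _) (algebraMap K (PadicAlgCl p) z)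
  have h2 := hsp.natDegree_eq_card_roots
  rw [natDegree_map] at h2
  rw [eval_map_algebraMap, aeval_algebraMap_apply, coe_aeval_eq_eval] at h1
  have h3 : (u.map (algebraMap K (PadicAlgCl p))).roots.map
      (fun x => x - algebraMap K (PadicAlgCl p) z) =
      ((u.map (algebraMap K (PadicAlgCl p))).roots.map
        (fun x => algebraMap K (PadicAlgCl p) z - x)).map Neg.neg := by
    rw [Multiset.map_map]
    refine Multiset.map_congr rfl fun x _ => ?_
    simp
  rw [h3, Multiset.prod_map_neg, Multiset.card_map, ← h1, ← h2, map_mul, map_pow, map_neg, map_one]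

/-- an element that is fixed by the Galois group -/
lemma mem_of_fix {z : PadicAlgCl p} (h : ∀ τ : PadicAlgCl p ≃ₐ[K] PadicAlgCl p, τ z = z) :
    ∃ k : K, algebraMap K (PadicAlgCl p) k = z := by
  have := galK (K := K)
  have h1 : z ∈ Set.range (algebraMap K (PadicAlgCl p)) := by
    rw [InfiniteGalois.mem_range_algebraMap_iff_fixed]
    exact h
  exact h1

/-- products over the roots -/
lemma prod_fix (u : K[X]) (w : PadicAlgCl p → PadicAlgCl p)
    (hw : ∀ (τ : PadicAlgCl p ≃ₐ[K] PadicAlgCl p) (x : PadicAlgCl p), w (τ x) = τ (w x)) :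
    ∃ k : K, algebraMap K (PadicAlgCl p) k =
      ((u.map (algebraMap K (PadicAlgCl p))).roots.map w).prod := by
  apply mem_of_fix
  intro τ
  have h1 : τ ((u.map (algebraMap K (PadicAlgCl p))).roots.map w).prod =
      (((u.map (algebraMap K (PadicAlgCl p))).roots.map w).map τ).prod :=
    map_multiset_prod (τ : PadicAlgCl p →+* PadicAlgCl p) _
  rw [h1, Multiset.map_map]
  have h2 : (⇑τ ∘ w) = w ∘ τ := by
    funext x
    exact (hw τ x).symm
  rw [h2, ← Multiset.map_map, roots_fix]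

lemma root_eval {u : K[X]} {x : PadicAlgCl p} (hu : u.Monic)
    (hx : x ∈ (u.map (algebraMap K (PadicAlgCl p))).roots) :
    (u.map (algebraMap K (PadicAlgCl p))).eval x = 0 := by
  have h := (mem_roots (hu.map _).ne_zero).1 hx
  exact h

end roots

section main

variable {g : ℕ} {a : Fin (2 * g + 1) → ℤ}

lemma dvd_map {F L : Type} [Field F] [Field L] (φ : F →+* L) {u v : F[X]}
    (huv : u ∣ hpol a F - v ^ 2) : u.map φ ∣ hpol a L - (v.map φ) ^ 2 := by
  have := Polynomial.map_dvd φ huv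
  rwa [Polynomial.map_sub, Polynomial.map_pow, hpol_map] at this

/-- the values at an even cluster -/
theorem cluster_sq {S : Finset (Fin (2 * g + 1))} {c : Fin (2 * g + 1)}
    (ha : Function.Injective a) (hc : c ∈ S)
    (hcl : ∀ i ∈ S, ∀ l ∉ S, ‖A a 2 c - A a 2 i‖ ≤ ‖A a 2 c - A a 2 l‖ / 32)
    {m : ℕ} (hm : S.card = 2 * m) {K : IntermediateField ℚ_[2] (PadicAlgCl 2)} {u v : K[X]}
    (hu : u.Monic) (huv : u ∣ hpol a K - v ^ 2) (h0 : ∀ i, u.eval ((a i : ℤ) : K) ≠ 0) :
    ∃ (n : ℕ) (k : K), (∏ i ∈ S, ((-1) ^ u.natDegree * u.eval ((a i : ℤ) : K))) *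
      (∏ l ∈ Sᶜ, (((a c : ℤ) : K) - ((a l : ℤ) : K))) ^ n = k ^ 2 := by
  classical
  set Z := (u.map (algebraMap K (PadicAlgCl 2))).roots with hZ
  set V := v.map (algebraMap K (PadicAlgCl 2)) with hV
  have hZ1 : ∀ x ∈ Z, x ≠ A a 2 c ∧ (hpol a (PadicAlgCl 2)).eval x = V.eval x ^ 2 := by
    intro x hx
    have h1 := root_eval hu hx
    refine ⟨?_, root_sq (dvd_map _ huv) h1⟩
    rintro rfl
    rw [show A a 2 c = algebraMap K (PadicAlgCl 2) ((a c : ℤ) : K) from (map_intCast _ _).symm,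
      eval_map_algebraMap, aeval_algebraMap_apply] at h1
    exact h0 c ((_root_.map_eq_zero _).1 h1)
  have key : ∀ Y : Multiset (PadicAlgCl 2), (∀ x ∈ Y, x ≠ A a 2 c ∧
      (hpol a (PadicAlgCl 2)).eval x = V.eval x ^ 2) →
      ∃ n : ℕ, (Y.map (ww a S c V m)).prod ^ 2 =
        (∏ i ∈ S, (Y.map (fun x => x - A a 2 i)).prod) *
          (∏ l ∈ Sᶜ, (A a 2 c - A a 2 l)) ^ n := by
    intro Y
    induction Y using Multiset.induction_on with
    | empty => intro _; exact ⟨0, by simp⟩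
    | cons x Y ih =>
      intro hY
      obtain ⟨n, hn⟩ := ih fun y hy => hY y (Multiset.mem_cons_of_mem hy)
      obtain ⟨hx1, hx2⟩ := hY x (Multiset.mem_cons_self _ _)
      obtain ⟨e, he⟩ := ww_sq ha hc hcl hm hx1 hx2
      refine ⟨n + e, ?_⟩
      simp only [Multiset.map_cons, Multiset.prod_cons]
      rw [mul_pow, hn, he, Finset.prod_mul_distrib, pow_add]
      ring
  obtain ⟨n, hn⟩ := key Z hZ1
  obtain ⟨k, hk⟩ := prod_fix u (ww a S c V m) (fun τ x => by
    have h1 := ww_map a S c (v := V) (m := m) (τ.restrictScalars ℚ_[2]) (map_fix v τ) x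
    exact h1)
  refine ⟨n, k, ?_⟩
  apply (algebraMap K (PadicAlgCl 2)).injective
  rw [map_pow, hk, hn, map_mul, map_prod, map_pow, map_prod]
  congr 1
  · refine Finset.prod_congr rfl fun i _ => ?_
    rw [delta hu, map_intCast]

end main

end Pool.Agent.Helper891_JO
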